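import Pool.Agent.Y998.ST.Main

/-!
# The heat kernel of the torus
-/

set_option autoImplicit false

namespace Pool.Agent.Y998.ST

open Finset Equiv

section line

variable {L : ℕ} [NeZero L]

/-- real part of the character -/
noncomputable def rc (x : ZMod L) : ℝ := (ZMod.stdAddChar x : ℂ).re

/-- eigenvalue -/
noncomputable def lam (k : ZMod L) : ℝ := 2 - 2 * rc k

/-- one-dimensional heat kernel -/
noncomputable def gk (L : ℕ) [NeZero L] (t : ℝ) (u : ZMod L) : ℝ :=
  (1 / L : ℝ) * ∑ k : ZMod L, Real.exp (-(t * lam k)) * rc (k * u)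

theorem rc_le (x : ZMod L) : |rc x| ≤ 1 := by
  unfold rc
  have h1 : ‖(ZMod.stdAddChar x : ℂ)‖ = 1 := AddChar.norm_apply _ x
  rw [← h1]
  exact Complex.abs_re_le_norm _

theorem rc_zero : rc (0 : ZMod L) = 1 := by
  unfold rc
  rw [AddChar.map_zero_eq_one, Complex.one_re]

theorem rc_neg (x : ZMod L) : (ZMod.stdAddChar (-x) : ℂ) =
    (starRingEnd ℂ) (ZMod.stdAddChar x) := AddChar.map_neg_eq_conj _ x

theorem rc_add (k u : ZMod L) : rc (k * (u + 1)) + rc (k * (u - 1)) = 2 * rc k * rc (k * u) := by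
  unfold rc
  have e1 : k * (u + 1) = k * u + k := by ring
  have e2 : k * (u - 1) = k * u + -k := by ring
  rw [e1, e2, AddChar.map_add_eq_mul, AddChar.map_add_eq_mul, rc_neg, Complex.mul_re,
    Complex.mul_re, Complex.conj_re, Complex.conj_im]
  ring

theorem gk_zero (u : ZMod L) : gk L 0 u = if u = 0 then 1 else 0 := by
  unfold gk
  simp only [zero_mul, neg_zero, Real.exp_zero, one_mul]
  have h1 := AddChar.sum_mulShift u (ZMod.isPrimitive_stdAddChar L)
  have h2 : ∑ k : ZMod L, rc (k * u) = (∑ k : ZMod L, (ZMod.stdAddChar (k * u) : ℂ)).re := by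
    rw [Complex.re_sum]
    rfl
  rw [h2, h1]
  have hL : (L : ℝ) ≠ 0 := by exact_mod_cast NeZero.ne L
  split_ifs with h
  · rw [ZMod.card, Complex.natCast_re]
    field_simp
  · simp

theorem gk_deriv (t : ℝ) (u : ZMod L) :
    HasDerivAt (fun s => gk L s u) (gk L t (u + 1) + gk L t (u - 1) - 2 * gk L t u) t := by
  unfold gk
  have h1 : ∀ k : ZMod L, HasDerivAt (fun s : ℝ => Real.exp (-(s * lam k)) * rc (k * u))
      (Real.exp (-(t * lam k)) * (-(1 * lam k)) * rc (k * u)) t := fun k =>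
    ((((hasDerivAt_id' t).mul_const (lam k)).fun_neg).exp).mul_const _
  have h2 := (HasDerivAt.fun_sum (u := Finset.univ) fun k _ => h1 k).const_mul (1 / L : ℝ)
  refine h2.congr_deriv ?_
  have key : ∑ k : ZMod L, Real.exp (-(t * lam k)) * (-(1 * lam k)) * rc (k * u) =
      ∑ k : ZMod L, Real.exp (-(t * lam k)) * rc (k * (u + 1)) +
      ∑ k : ZMod L, Real.exp (-(t * lam k)) * rc (k * (u - 1)) -
      2 * ∑ k : ZMod L, Real.exp (-(t * lam k)) * rc (k * u) := by
    rw [← Finset.sum_add_distrib, Finset.mul_sum, ← Finset.sum_sub_distrib]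
    refine Finset.sum_congr rfl fun k _ => ?_
    have h3 := rc_add k u
    have h4 : rc (k * (u + 1)) = 2 * rc k * rc (k * u) - rc (k * (u - 1)) := by linarith
    rw [h4]
    unfold lam
    ring
  rw [key]
  ring

theorem lam_nonneg (k : ZMod L) : 0 ≤ lam k := by
  have := (abs_le.1 (rc_le k)).2
  unfold lam
  linarith

theorem gk_abs (t : ℝ) (u : ZMod L) : |gk L t u| ≤ gk L t 0 := by
  unfold gk
  have hL : (0 : ℝ) ≤ 1 / L := by positivity
  rw [abs_mul, abs_of_nonneg hL]
  refine mul_le_mul_of_nonneg_left ((Finset.abs_sum_le_sum_abs _ _).trans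
    (Finset.sum_le_sum fun k _ => ?_)) hL
  rw [abs_mul, abs_of_pos (Real.exp_pos _), mul_zero, rc_zero]
  exact mul_le_mul_of_nonneg_left (rc_le _) (Real.exp_pos _).le

theorem lam_lower (k : ZMod L) : 16 * ((k.valMinAbs : ℝ) / L) ^ 2 ≤ lam k := by
  have hL : (0 : ℝ) < L := by exact_mod_cast Nat.pos_of_ne_zero (NeZero.ne L)
  have h1 : rc k = Real.cos (2 * Real.pi * k.valMinAbs / L) := by
    unfold rc
    have h2 : (ZMod.stdAddChar k : ℂ) = Complex.exp (2 * Real.pi * Complex.I * k.valMinAbs / L) := by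
      rw [← ZMod.stdAddChar_coe, ZMod.coe_valMinAbs]
    have h3 : (2 * Real.pi * Complex.I * k.valMinAbs / L : ℂ) =
        ((2 * Real.pi * k.valMinAbs / L : ℝ) : ℂ) * Complex.I := by
      push_cast
      ring
    rw [h2, h3, Complex.exp_ofReal_mul_I_re]
  have h4 := ZMod.valMinAbs_mem_Ioc k
  have h5 : |(k.valMinAbs : ℝ) / L| ≤ 1 / 2 := by
    rw [abs_le]
    have h6 : -(L : ℝ) < (k.valMinAbs : ℝ) * 2 := by exact_mod_cast h4.1
    have h7 : (k.valMinAbs : ℝ) * 2 ≤ L := by exact_mod_cast h4.2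
    constructor
    · rw [le_div_iff₀ hL]; linarith
    · rw [div_le_iff₀ hL]; linarith
  have hpi := Real.pi_pos
  have h8 : |2 * Real.pi * k.valMinAbs / L| ≤ Real.pi := by
    have h9 : 2 * Real.pi * k.valMinAbs / L = 2 * Real.pi * ((k.valMinAbs : ℝ) / L) := by ring
    rw [h9, abs_mul, abs_of_pos (by positivity)]
    nlinarith
  have h10 := Real.cos_le_one_sub_mul_cos_sq h8
  unfold lam
  rw [h1]
  have h11 : 2 / Real.pi ^ 2 * (2 * Real.pi * k.valMinAbs / L) ^ 2 =
      8 * ((k.valMinAbs : ℝ) / L) ^ 2 := by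
    field_simp
    ring
  rw [h11] at h10
  linarith

theorem gauss_term {β : ℝ} (m : ℕ) :
    Real.exp (-(β ^ 2 * (m : ℝ) ^ 2)) ≤ 2 * Real.exp (-β) ^ m := by
  have h1 : -(β ^ 2 * (m : ℝ) ^ 2) ≤ 1 / 4 + (m : ℝ) * (-β) := by
    nlinarith [sq_nonneg (β * m - 1 / 2)]
  calc Real.exp (-(β ^ 2 * (m : ℝ) ^ 2)) ≤ Real.exp (1 / 4 + (m : ℝ) * (-β)) := Real.exp_le_exp.2 h1
    _ = Real.exp (1 / 4) * Real.exp (-β) ^ m := by rw [Real.exp_add, Real.exp_nat_mul]
    _ ≤ 2 * Real.exp (-β) ^ m := by
        refine mul_le_mul_of_nonneg_right ?_ (by positivity)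
        have h2 : Real.exp (1 / 4) ≤ Real.exp (Real.log 2) := Real.exp_le_exp.2 (by
          have := Real.log_two_gt_d9
          linarith)
        rwa [Real.exp_log (by norm_num)] at h2

theorem geom_le {β : ℝ} (hβ : 0 < β) (n : ℕ) :
    ∑ m ∈ Finset.range n, Real.exp (-β) ^ (m + 1) ≤ 1 / β := by
  have h0 : Real.exp (-β) < 1 := by
    have := Real.exp_lt_exp.2 (show -β < 0 by linarith)
    rwa [Real.exp_zero] at this
  have h1 := Real.exp_pos (-β)
  have h2 : Summable fun m : ℕ => Real.exp (-β) ^ (m + 1) :=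
    (summable_nat_add_iff 1).2 (summable_geometric_of_lt_one h1.le h0)
  refine (h2.sum_le_tsum _ fun m _ => by positivity).trans ?_
  have h3 : ∑' m : ℕ, Real.exp (-β) ^ (m + 1) = Real.exp (-β) * (1 - Real.exp (-β))⁻¹ := by
    simp only [pow_succ']
    rw [tsum_mul_left, tsum_geometric_of_lt_one h1.le h0]
  rw [h3, ← div_eq_mul_inv, div_le_div_iff₀ (by linarith) hβ, one_mul]
  have h4 : 1 + β ≤ Real.exp β := by linarith [Real.add_one_le_exp β]
  have h5 : Real.exp (-β) * Real.exp β = 1 := by rw [← Real.exp_add]; simp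
  nlinarith

theorem gk_le {t : ℝ} (ht : 0 < t) : gk L t 0 ≤ 1 / L + 1 / Real.sqrt t := by
  have hL : (0 : ℝ) < L := by exact_mod_cast Nat.pos_of_ne_zero (NeZero.ne L)
  have hst : 0 < Real.sqrt t := Real.sqrt_pos.2 ht
  obtain ⟨β, hβ⟩ : ∃ β : ℝ, β = 4 * Real.sqrt t / L := ⟨_, rfl⟩
  have hβ0 : 0 < β := by rw [hβ]; positivity
  have h1 : ∑ k : ZMod L, Real.exp (-(t * lam k)) ≤ 1 + 4 * (1 / β) := by
    have h2 : ∀ k : ZMod L, Real.exp (-(t * lam k)) ≤
        Real.exp (-(β ^ 2 * (k.valMinAbs : ℝ) ^ 2)) := by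
      intro k
      refine Real.exp_le_exp.2 ?_
      have h3 := mul_le_mul_of_nonneg_left (lam_lower k) ht.le
      have h4 : β ^ 2 * (k.valMinAbs : ℝ) ^ 2 = t * (16 * ((k.valMinAbs : ℝ) / L) ^ 2) := by
        rw [hβ, div_pow, mul_pow, Real.sq_sqrt ht.le]
        field_simp
        ring
      linarith
    refine (Finset.sum_le_sum fun k _ => h2 k).trans ?_
    have h5 : ∑ k : ZMod L, Real.exp (-(β ^ 2 * (k.valMinAbs : ℝ) ^ 2)) ≤
        ∑ m ∈ Finset.Icc (-(L : ℤ)) L, Real.exp (-(β ^ 2 * (m : ℝ) ^ 2)) := by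
      have h6 : ∑ k : ZMod L, Real.exp (-(β ^ 2 * (k.valMinAbs : ℝ) ^ 2)) =
          ∑ m ∈ Finset.univ.image (fun k : ZMod L => k.valMinAbs),
            Real.exp (-(β ^ 2 * (m : ℝ) ^ 2)) := by
        rw [Finset.sum_image]
        intro a _ b _ hab
        exact ZMod.injective_valMinAbs hab
      rw [h6]
      refine Finset.sum_le_sum_of_subset_of_nonneg ?_ fun m _ _ => (Real.exp_pos _).le
      intro m hm
      obtain ⟨k, _, rfl⟩ := Finset.mem_image.1 hm
      have h7 := ZMod.valMinAbs_mem_Ioc k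
      rw [Finset.mem_Icc]
      have h8 := h7.1
      have h9 := h7.2
      constructor <;> omega
    refine h5.trans ?_
    have h6 : Finset.Icc (-(L : ℤ)) L = insert 0 ((Finset.range L).image (fun m : ℕ => (m : ℤ) + 1) ∪
        (Finset.range L).image (fun m : ℕ => -((m : ℤ) + 1))) := by
      ext m
      simp only [Finset.mem_Icc, Finset.mem_insert, Finset.mem_union, Finset.mem_image,
        Finset.mem_range]
      constructor
      · intro h
        rcases lt_trichotomy m 0 with h0 | h0 | h0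
        · right; right
          exact ⟨(-m - 1).toNat, by omega, by omega⟩
        · left; exact h0
        · right; left
          exact ⟨(m - 1).toNat, by omega, by omega⟩
      · rintro (h | ⟨a, ha, rfl⟩ | ⟨a, ha, rfl⟩) <;> omega
    have hpos : ∀ m : ℤ, 0 ≤ Real.exp (-(β ^ 2 * (m : ℝ) ^ 2)) := fun m => (Real.exp_pos _).le
    rw [h6]
    have h7 : ∑ m ∈ insert (0 : ℤ) ((Finset.range L).image (fun m : ℕ => (m : ℤ) + 1) ∪
        (Finset.range L).image (fun m : ℕ => -((m : ℤ) + 1))), Real.exp (-(β ^ 2 * (m : ℝ) ^ 2)) ≤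
        Real.exp (-(β ^ 2 * ((0 : ℤ) : ℝ) ^ 2)) +
        (∑ m ∈ (Finset.range L).image (fun m : ℕ => (m : ℤ) + 1),
          Real.exp (-(β ^ 2 * (m : ℝ) ^ 2)) +
        ∑ m ∈ (Finset.range L).image (fun m : ℕ => -((m : ℤ) + 1)),
          Real.exp (-(β ^ 2 * (m : ℝ) ^ 2))) := by
      rw [Finset.sum_insert (by
        simp only [Finset.mem_union, Finset.mem_image, Finset.mem_range]
        rintro (⟨a, _, h⟩ | ⟨a, _, h⟩) <;> omega)]
      refine add_le_add le_rfl ?_
      rw [← Finset.sum_union_inter]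
      exact le_add_of_nonneg_right (Finset.sum_nonneg fun m _ => hpos m)
    refine h7.trans ?_
    have h8 : ∑ m ∈ (Finset.range L).image (fun m : ℕ => (m : ℤ) + 1),
          Real.exp (-(β ^ 2 * (m : ℝ) ^ 2)) ≤ 2 * (1 / β) := by
      rw [Finset.sum_image (by intro a _ b _ hab; simp only at hab; omega)]
      calc ∑ m ∈ Finset.range L, Real.exp (-(β ^ 2 * (((m : ℤ) + 1 : ℤ) : ℝ) ^ 2))
          ≤ ∑ m ∈ Finset.range L, 2 * Real.exp (-β) ^ (m + 1) := by
            refine Finset.sum_le_sum fun m _ => ?_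
            have := gauss_term (β := β) (m + 1)
            push_cast at this ⊢
            exact this
        _ ≤ 2 * (1 / β) := by
            rw [← Finset.mul_sum]
            exact mul_le_mul_of_nonneg_left (geom_le hβ0 L) (by norm_num)
    have h9 : ∑ m ∈ (Finset.range L).image (fun m : ℕ => -((m : ℤ) + 1)),
          Real.exp (-(β ^ 2 * (m : ℝ) ^ 2)) ≤ 2 * (1 / β) := by
      rw [Finset.sum_image (by intro a _ b _ hab; simp only at hab; omega)]
      calc ∑ m ∈ Finset.range L, Real.exp (-(β ^ 2 * ((-((m : ℤ) + 1) : ℤ) : ℝ) ^ 2))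
          ≤ ∑ m ∈ Finset.range L, 2 * Real.exp (-β) ^ (m + 1) := by
            refine Finset.sum_le_sum fun m _ => ?_
            have := gauss_term (β := β) (m + 1)
            push_cast at this ⊢
            rw [neg_sq]
            exact this
        _ ≤ 2 * (1 / β) := by
            rw [← Finset.mul_sum]
            exact mul_le_mul_of_nonneg_left (geom_le hβ0 L) (by norm_num)
    have h10 : Real.exp (-(β ^ 2 * ((0 : ℤ) : ℝ) ^ 2)) = 1 := by simp
    rw [h10]
    linarith
  unfold gk
  simp only [mul_zero, rc_zero, mul_one]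
  have h2 : 4 * (1 / β) = L * (1 / Real.sqrt t) := by
    rw [hβ]
    field_simp
  rw [h2] at h1
  calc 1 / (L : ℝ) * ∑ k : ZMod L, Real.exp (-(t * lam k))
      ≤ 1 / (L : ℝ) * (1 + L * (1 / Real.sqrt t)) := mul_le_mul_of_nonneg_left h1 (by positivity)
    _ = 1 / L + 1 / Real.sqrt t := by field_simp

end line

section torus

variable {d L : ℕ} [NeZero L]

theorem one_ne (hL : 3 ≤ L) (x : ZMod L) : x + 1 ≠ x := by
  intro h
  have h1 : (1 : ZMod L) = 0 := by simpa using h
  have : Fact (1 < L) := ⟨by omega⟩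
  exact one_ne_zero h1

theorem two_ne (hL : 3 ≤ L) (x : ZMod L) : x + 1 ≠ x - 1 := by
  intro h
  have h1 : ((2 : ℕ) : ZMod L) = 0 := by
    have : (2 : ZMod L) = 0 := by linear_combination h
    exact_mod_cast this
  rw [ZMod.natCast_eq_zero_iff] at h1
  exact absurd (Nat.le_of_dvd (by norm_num) h1) (by omega)

theorem nn_eq (hL : 3 ≤ L) (x b : Fin d → ZMod L) : nnRate d L x b =
    ∑ a, ((if x = Function.update b a (b a + 1) then (1 : ℝ) else 0) +
      (if x = Function.update b a (b a - 1) then 1 else 0)) := by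
  have hup : ∀ (a : Fin d) (c : ZMod L), x = Function.update b a c → ∀ a', a' ≠ a → x a' = b a' :=
    fun a c h a' ha' => by rw [h, Function.update_of_ne ha']
  have hdiff : ∀ (a : Fin d) (c : ZMod L), c ≠ b a → x = Function.update b a c → ∀ (a' : Fin d)
      (c' : ZMod L), a' ≠ a → x ≠ Function.update b a' c' := by
    intro a c hc h a' c' ha' h'
    have h1 : x a = b a := hup a' c' h' a (Ne.symm ha')
    rw [h, Function.update_self] at h1
    exact hc h1
  have hm : ∀ y : ZMod L, y - 1 ≠ y := by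
    intro y h
    exact one_ne hL (y - 1) (by rw [sub_add_cancel]; exact h.symm)
  unfold nnRate
  by_cases hex : ∃ a, b = Function.update x a (x a + 1) ∨ x = Function.update b a (b a + 1)
  · rw [if_pos hex]
    obtain ⟨a, h | h⟩ := hex
    · have h1 : x = Function.update b a (b a - 1) := by
        rw [h]
        funext a'
        by_cases ha : a' = a
        · subst ha; simp
        · simp [Function.update_of_ne ha]
      rw [Finset.sum_eq_single a]
      · rw [if_pos h1, if_neg, zero_add]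
        intro h2
        have h3 : x a = b a - 1 := by rw [h1]; simp
        have h4 : x a = b a + 1 := by rw [h2]; simp
        exact two_ne hL (b a) (h4.symm.trans h3)
      · intro a' _ ha'
        rw [if_neg (hdiff a _ (hm _) h1 a' _ ha'), if_neg (hdiff a _ (hm _) h1 a' _ ha'), add_zero]
      · intro h; exact absurd (Finset.mem_univ _) h
    · rw [Finset.sum_eq_single a]
      · rw [if_pos h, if_neg, add_zero]
        intro h2
        have h3 : x a = b a - 1 := by rw [h2]; simp
        have h4 : x a = b a + 1 := by rw [h]; simp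
        exact two_ne hL (b a) (h4.symm.trans h3)
      · intro a' _ ha'
        rw [if_neg (hdiff a _ (one_ne hL _) h a' _ ha'),
          if_neg (hdiff a _ (one_ne hL _) h a' _ ha'), add_zero]
      · intro h; exact absurd (Finset.mem_univ _) h
  · rw [if_neg hex]
    symm
    refine Finset.sum_eq_zero fun a _ => ?_
    rw [if_neg, if_neg, add_zero]
    · intro h
      refine hex ⟨a, Or.inl ?_⟩
      rw [h]
      funext a'
      by_cases ha : a' = a
      · subst ha; simp
      · simp [Function.update_of_ne ha]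
    · exact fun h => hex ⟨a, Or.inr h⟩

theorem nn_symm (x b : Fin d → ZMod L) : nnRate d L x b = nnRate d L b x := by
  unfold nnRate
  have : (∃ a, b = Function.update x a (x a + 1) ∨ x = Function.update b a (b a + 1)) ↔
      (∃ a, x = Function.update b a (b a + 1) ∨ b = Function.update x a (x a + 1)) := by
    constructor
    · rintro ⟨a, h⟩; exact ⟨a, h.symm⟩
    · rintro ⟨a, h⟩; exact ⟨a, h.symm⟩
  simp only [this]

theorem nn_nonneg (x b : Fin d → ZMod L) : 0 ≤ nnRate d L x b := by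
  unfold nnRate
  split_ifs <;> norm_num

theorem nn_diag (hL : 3 ≤ L) (x : Fin d → ZMod L) : nnRate d L x x = 0 := by
  unfold nnRate
  rw [if_neg]
  rintro ⟨a, h⟩
  have h1 : x = Function.update x a (x a + 1) := by tauto
  have h2 := congrFun h1 a
  rw [Function.update_self] at h2
  exact one_ne hL (x a) h2.symm

theorem nn_sum (hL : 3 ≤ L) (f : (Fin d → ZMod L) → ℝ) (b : Fin d → ZMod L) :
    ∑ x, f x * nnRate d L x b =
      ∑ a, (f (Function.update b a (b a + 1)) + f (Function.update b a (b a - 1))) := by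
  simp only [nn_eq hL, Finset.mul_sum, mul_add, mul_ite, mul_one, mul_zero]
  rw [Finset.sum_comm]
  refine Finset.sum_congr rfl fun a _ => ?_
  rw [Finset.sum_add_distrib, Finset.sum_ite_eq', Finset.sum_ite_eq', if_pos (Finset.mem_univ _),
    if_pos (Finset.mem_univ _)]

theorem nn_row (hL : 3 ≤ L) (x : Fin d → ZMod L) : ∑ b, nnRate d L x b = 2 * d := by
  have h1 := nn_sum hL (fun _ => 1) x
  simp only [one_mul] at h1
  rw [Finset.sum_congr rfl fun b _ => nn_symm x b, h1, Finset.sum_const, Finset.card_univ,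
    Fintype.card_fin, nsmul_eq_mul]
  ring

/-- heat kernel of the torus -/
noncomputable def hk (d L : ℕ) [NeZero L] (t : ℝ) : Matrix (Fin d → ZMod L) (Fin d → ZMod L) ℝ :=
  fun a b => ∏ i, gk L t (b i - a i)

theorem hk_deriv (hL : 3 ≤ L) (t : ℝ) (a b : Fin d → ZMod L) :
    HasDerivAt (fun s => hk d L s a b) ((hk d L t * GG (nnRate d L)) a b) t := by
  unfold hk
  have h1 := HasDerivAt.fun_finsetProd (u := (Finset.univ : Finset (Fin d)))
    (f := fun i s => gk L s (b i - a i)) (x := t) fun i _ => gk_deriv t (b i - a i)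
  refine h1.congr_deriv ?_
  rw [Matrix.mul_apply]
  have h2 : ∀ x : Fin d → ZMod L, (∏ i, gk L t (x i - a i)) * GG (nnRate d L) x b =
      (∏ i, gk L t (x i - a i)) * nnRate d L x b -
        (if x = b then (∏ i, gk L t (x i - a i)) * (2 * d) else 0) := by
    intro x
    unfold GG
    by_cases hx : x = b
    · subst hx
      rw [if_pos rfl, if_pos rfl, nn_row hL, nn_diag hL]
      ring
    · rw [if_neg hx, if_neg hx, sub_zero]
  rw [Finset.sum_congr rfl fun x _ => h2 x, Finset.sum_sub_distrib,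
    nn_sum hL (fun x => ∏ i, gk L t (x i - a i)), Finset.sum_ite_eq', if_pos (Finset.mem_univ _)]
  have h3 : (∏ i, gk L t (b i - a i)) * (2 * (d : ℝ)) =
      ∑ _i : Fin d, 2 * ∏ i, gk L t (b i - a i) := by
    rw [Finset.sum_const, Finset.card_univ, Fintype.card_fin, nsmul_eq_mul]
    ring
  rw [h3, ← Finset.sum_sub_distrib]
  refine Finset.sum_congr rfl fun i _ => ?_
  rw [smul_eq_mul]
  have h4 : ∀ c : ZMod L, ∏ j, gk L t (Function.update b i c j - a j) =
      gk L t (c - a i) * ∏ j ∈ Finset.univ.erase i, gk L t (b j - a j) := by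
    intro c
    rw [← Finset.mul_prod_erase Finset.univ _ (Finset.mem_univ i), Function.update_self]
    congr 1
    exact Finset.prod_congr rfl fun j hj => by
      rw [Function.update_of_ne (Finset.ne_of_mem_erase hj)]
  rw [h4, h4, ← Finset.mul_prod_erase Finset.univ _ (Finset.mem_univ i)]
  have e1 : b i + 1 - a i = b i - a i + 1 := by ring
  have e2 : b i - 1 - a i = b i - a i - 1 := by ring
  rw [e1, e2]
  ring

theorem hk_zero : hk d L 0 = 1 := by
  ext a b
  unfold hk
  simp only [gk_zero, sub_eq_zero]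
  rw [Matrix.one_apply]
  by_cases h : a = b
  · subst h
    rw [if_pos rfl]
    exact Finset.prod_eq_one fun i _ => if_pos rfl
  · rw [if_neg h]
    obtain ⟨i, hi⟩ := Function.ne_iff.1 h
    exact Finset.prod_eq_zero (Finset.mem_univ i) (if_neg (Ne.symm hi))

theorem qq_eq_hk (hL : 3 ≤ L) (t : ℝ) : qq (nnRate d L) t = hk d L t := by
  rw [eq_E (qq_deriv nn_symm (nn_diag hL)) (qq_zero _) t, eq_E (hk_deriv hL) hk_zero t]

theorem qq_torus (hL : 3 ≤ L) {t : ℝ} (ht : 0 < t) (a b : Fin d → ZMod L) :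
    qq (nnRate d L) t a b ≤ (1 / L + 1 / Real.sqrt t) ^ d := by
  rw [qq_eq_hk hL]
  unfold hk
  refine (le_abs_self _).trans ?_
  rw [Finset.abs_prod]
  calc ∏ i, |gk L t (b i - a i)| ≤ ∏ _i : Fin d, (1 / L + 1 / Real.sqrt t) :=
        Finset.prod_le_prod (fun i _ => abs_nonneg _) fun i _ => (gk_abs t _).trans (gk_le ht)
    _ = _ := by rw [Finset.prod_const, Finset.card_univ, Fintype.card_fin]

end torus

end Pool.Agent.Y998.ST
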