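import Mathlib

/-!
# Random stirring: definitions

Nearest neighbour random stirring on the torus `(ℤ / L)^d`.
-/

set_option autoImplicit false

namespace Pool.Agent.Y998.ST

open Finset Equiv

/-- The sum over all unordered pairs of the rates. -/
noncomputable def totalRate {V : Type} [Fintype V] (J : V → V → ℝ) : ℝ := ∑ x, ∑ y, J x y / 2

/-- The probability that random stirring started at the identity, with an independent Poisson clock
of rate `J x y` for every unordered pair `{x, y}` (`J` symmetric), is at the permutation `g` at time
`t`: there are `n` rings up to time `t` with probability `exp (-R t) (R t)^n / n!`, `R` the total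
rate, and each ring is a ring of the ordered pair `(x, y)` with probability `J x y / (2 R)`. -/
noncomputable def stirLaw {V : Type} [Fintype V] [DecidableEq V] (J : V → V → ℝ) (t : ℝ)
    (g : Perm V) : ℝ :=
  ∑' n : ℕ, Real.exp (-(t * totalRate J)) * t ^ n / (n.factorial : ℝ) *
    ∑ w : Fin n → V × V, (∏ i, J (w i).1 (w i).2 / 2) *
      (if (List.ofFn fun i => swap (w i).1 (w i).2).prod = g then 1 else 0)

/-- The expectation of `F` under random stirring at time `t`. -/
noncomputable def stirExp {V : Type} [Fintype V] [DecidableEq V] (J : V → V → ℝ) (t : ℝ)
    (F : Perm V → ℝ) : ℝ := ∑ g, stirLaw J t g * F g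

/-- The probability that stirring for time `t` takes `a` to `b`: the transition probability of the
continuous time random walk with jump rates `J`. -/
noncomputable def hop {V : Type} [Fintype V] [DecidableEq V] (J : V → V → ℝ) (t : ℝ)
    (a b : V) : ℝ := stirExp J t (fun g => if g a = b then 1 else 0)

/-- Length of the cycle of `g` through `v`. -/
noncomputable def cycleLen {V : Type} [Fintype V] (g : Perm V) (v : V) : ℕ :=
  Nat.card {w : V // g.SameCycle v w}

/-- Rate `1` for every pair of nearest neighbours of the torus `(ℤ / L)^d`, and `0` otherwise. -/
noncomputable def nnRate (d L : ℕ) (x y : Fin d → ZMod L) : ℝ :=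
  open Classical in
  if ∃ a, y = Function.update x a (x a + 1) ∨ x = Function.update y a (y a + 1) then 1 else 0

end Pool.Agent.Y998.ST
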