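import Pool.Agent.Y998.ST.Exp
import Pool.Agent.Y998.ST.Defs

/-!
# The stirring law as a matrix exponential, and the kernels of `K` labelled particles
-/

set_option autoImplicit false

namespace Pool.Agent.Y998.ST

open Finset Equiv

section law

variable {V : Type} [Fintype V] [DecidableEq V]

/-- multiplication by a random transposition -/
noncomputable def TT (J : V → V → ℝ) : Matrix (Perm V) (Perm V) ℝ :=
  fun g h => ∑ x, ∑ y, J x y / 2 * (if h = swap x y * g then 1 else 0)

theorem TT_mul (J : V → V → ℝ) (M : Matrix (Perm V) (Perm V) ℝ) (g h : Perm V) :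
    (TT J * M) g h = ∑ x, ∑ y, J x y / 2 * M (swap x y * g) h := by
  rw [Matrix.mul_apply]
  unfold TT
  simp only [Finset.sum_mul]
  rw [Finset.sum_comm]
  refine Finset.sum_congr rfl fun x _ => ?_
  rw [Finset.sum_comm]
  refine Finset.sum_congr rfl fun y _ => ?_
  rw [Finset.sum_eq_single (swap x y * g)]
  · rw [if_pos rfl, mul_one]
  · intro k _ hk; rw [if_neg hk, mul_zero, zero_mul]
  · intro h; exact absurd (Finset.mem_univ _) h

theorem TT_words (J : V → V → ℝ) (n : ℕ) : ∀ g : Perm V, (TT J ^ n) g 1 =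
    ∑ w : Fin n → V × V, (∏ i, J (w i).1 (w i).2 / 2) *
      (if (List.ofFn fun i => swap (w i).1 (w i).2).prod = g then 1 else 0) := by
  induction n with
  | zero =>
    intro g
    rw [pow_zero, Matrix.one_apply]
    simp only [Fintype.sum_unique, Finset.univ_eq_empty, Finset.prod_empty, one_mul,
      List.ofFn_zero, List.prod_nil]
    by_cases h : g = 1
    · rw [if_pos h, if_pos h.symm]
    · rw [if_neg h, if_neg (Ne.symm h)]
  | succ n ih =>
    intro g
    rw [pow_succ', TT_mul, ← (Fin.consEquiv (fun _ : Fin (n + 1) => V × V)).sum_comp,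
      Fintype.sum_prod_type, Fintype.sum_prod_type]
    refine Finset.sum_congr rfl fun x _ => Finset.sum_congr rfl fun y _ => ?_
    rw [ih, Finset.mul_sum]
    refine Finset.sum_congr rfl fun w _ => ?_
    have e1 : (Fin.consEquiv (fun _ : Fin (n + 1) => V × V)) ((x, y), w) =
        Fin.cons (x, y) w := rfl
    rw [e1, Fin.prod_univ_succ, List.ofFn_succ, List.prod_cons]
    simp only [Fin.cons_zero, Fin.cons_succ]
    have e2 : (List.ofFn fun i => swap (w i).1 (w i).2).prod = swap x y * g ↔
        swap x y * (List.ofFn fun i => swap (w i).1 (w i).2).prod = g := by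
      constructor
      · intro h; rw [h, ← mul_assoc, swap_mul_self, one_mul]
      · intro h; rw [← h, ← mul_assoc, swap_mul_self, one_mul]
    simp only [e2]
    ring

theorem law_eq (J : V → V → ℝ) (t : ℝ) (g : Perm V) :
    stirLaw J t g = Real.exp (-(t * totalRate J)) * E (TT J) t g 1 := by
  unfold stirLaw
  rw [← (E_hasSum (TT J) t g 1).tsum_eq, ← tsum_mul_left]
  refine tsum_congr fun n => ?_
  rw [TT_words]
  ring

theorem law_nonneg {J : V → V → ℝ} (hJ : ∀ x y, 0 ≤ J x y) {t : ℝ} (ht : 0 ≤ t) (g : Perm V) :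
    0 ≤ stirLaw J t g := by
  rw [law_eq]
  refine mul_nonneg (Real.exp_pos _).le (E_nonneg (fun x y => ?_) ht _ _)
  exact Finset.sum_nonneg fun a _ => Finset.sum_nonneg fun b _ =>
    mul_nonneg (by linarith [hJ a b]) (by split_ifs <;> norm_num)

theorem law_zero (J : V → V → ℝ) (g : Perm V) : stirLaw J 0 g = if g = 1 then 1 else 0 := by
  rw [law_eq, E_zero, Matrix.one_apply, zero_mul, neg_zero, Real.exp_zero, one_mul]

theorem law_deriv (J : V → V → ℝ) (t : ℝ) (g : Perm V) :
    HasDerivAt (fun u => stirLaw J u g)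
      (∑ x, ∑ y, J x y / 2 * (stirLaw J t (swap x y * g) - stirLaw J t g)) t := by
  have h1 : HasDerivAt (fun u : ℝ => Real.exp (-(u * totalRate J)))
      (Real.exp (-(t * totalRate J)) * (-(1 * totalRate J))) t :=
    (((hasDerivAt_id' t).mul_const (totalRate J)).fun_neg).exp
  have h2 := h1.mul (E_deriv (TT J) t g 1)
  have h3 : (fun u => stirLaw J u g) =
      fun u => Real.exp (-(u * totalRate J)) * E (TT J) u g 1 := by
    funext u; exact law_eq J u g
  rw [h3]
  refine h2.congr_deriv ?_
  rw [TT_mul]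
  simp only [law_eq]
  have h4 : ∑ x, ∑ y, J x y / 2 * (Real.exp (-(t * totalRate J)) * E (TT J) t (swap x y * g) 1 -
      Real.exp (-(t * totalRate J)) * E (TT J) t g 1) =
      Real.exp (-(t * totalRate J)) * (∑ x, ∑ y, J x y / 2 * E (TT J) t (swap x y * g) 1) -
      (∑ x, ∑ y, J x y / 2) * (Real.exp (-(t * totalRate J)) * E (TT J) t g 1) := by
    rw [Finset.mul_sum, Finset.sum_mul, ← Finset.sum_sub_distrib]
    refine Finset.sum_congr rfl fun x _ => ?_
    rw [Finset.mul_sum, Finset.sum_mul, ← Finset.sum_sub_distrib]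
    refine Finset.sum_congr rfl fun y _ => ?_
    ring
  rw [h4]
  have h5 : (∑ x, ∑ y, J x y / 2) = totalRate J := rfl
  rw [h5]
  ring

/-- Kolmogorov's equation. -/
theorem exp_deriv (J : V → V → ℝ) (t : ℝ) (F : Perm V → ℝ) :
    HasDerivAt (fun u => stirExp J u F)
      (∑ x, ∑ y, J x y / 2 * (stirExp J t (fun g => F (swap x y * g)) - stirExp J t F)) t := by
  unfold stirExp
  have h1 := HasDerivAt.fun_sum (u := (Finset.univ : Finset (Perm V))) fun g _ =>
    (law_deriv J t g).mul_const (F g)
  refine h1.congr_deriv ?_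
  simp only [Finset.sum_mul]
  rw [Finset.sum_comm]
  refine Finset.sum_congr rfl fun x _ => ?_
  rw [Finset.sum_comm]
  refine Finset.sum_congr rfl fun y _ => ?_
  have h2 : ∑ g, stirLaw J t (swap x y * g) * F g = ∑ g, stirLaw J t g * F (swap x y * g) := by
    rw [← Equiv.sum_comp (Equiv.mulLeft (swap x y))]
    refine Finset.sum_congr rfl fun g _ => ?_
    rw [Equiv.coe_mulLeft, ← mul_assoc, swap_mul_self, one_mul]
  rw [← h2, ← Finset.sum_sub_distrib, Finset.mul_sum]
  refine Finset.sum_congr rfl fun g _ => ?_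
  ring

theorem exp_mono {J : V → V → ℝ} (hJ : ∀ x y, 0 ≤ J x y) {t : ℝ} (ht : 0 ≤ t)
    {F G : Perm V → ℝ} (h : ∀ g, F g ≤ G g) : stirExp J t F ≤ stirExp J t G :=
  Finset.sum_le_sum fun g _ => mul_le_mul_of_nonneg_left (h g) (law_nonneg hJ ht g)

theorem exp_const (J : V → V → ℝ) (t : ℝ) (c : ℝ) : stirExp J t (fun _ => c) = c := by
  have hd : ∀ s, HasDerivAt (fun u => stirExp J u (fun _ => c)) 0 s := by
    intro s
    have h1 := exp_deriv J s (fun _ => c)
    simpa using h1
  have hc := is_const_of_deriv_eq_zero (fun s => (hd s).differentiableAt) (fun s => (hd s).deriv)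
  rw [hc t 0]
  unfold stirExp
  simp only [law_zero, ite_mul, one_mul, zero_mul]
  rw [Finset.sum_ite_eq']
  simp

theorem exp_nonneg {J : V → V → ℝ} (hJ : ∀ x y, 0 ≤ J x y) {t : ℝ} (ht : 0 ≤ t)
    {F : Perm V → ℝ} (h : ∀ g, 0 ≤ F g) : 0 ≤ stirExp J t F :=
  Finset.sum_nonneg fun g _ => mul_nonneg (law_nonneg hJ ht g) (h g)

theorem exp_sum (J : V → V → ℝ) (t : ℝ) {ι : Type} (I : Finset ι) (F : ι → Perm V → ℝ) :
    ∑ i ∈ I, stirExp J t (F i) = stirExp J t (fun g => ∑ i ∈ I, F i g) := by
  unfold stirExp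
  rw [Finset.sum_comm]
  refine Finset.sum_congr rfl fun g _ => ?_
  rw [Finset.mul_sum]

end law

section kernels

variable {V : Type} [Fintype V] [DecidableEq V]

/-- action of a permutation on `K` points -/
def act {K : ℕ} (g : Perm V) (x : Fin K → V) : Fin K → V := fun i => g (x i)

/-- the kernel of `K` labelled stirring particles -/
noncomputable def UU (J : V → V → ℝ) (K : ℕ) (t : ℝ) : Matrix (Fin K → V) (Fin K → V) ℝ :=
  fun x y => stirExp J t (fun g => if act g x = y then 1 else 0)

/-- the generator of `K` labelled stirring particles -/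
noncomputable def LU (J : V → V → ℝ) (K : ℕ) : Matrix (Fin K → V) (Fin K → V) ℝ :=
  fun z y => ∑ a, ∑ b, J a b / 2 * ((if y = act (swap a b) z then 1 else 0) -
    (if y = z then 1 else 0))

omit [Fintype V] in
theorem act_swap {K : ℕ} (a b : V) (z y : Fin K → V) :
    y = act (swap a b) z ↔ z = act (swap a b) y := by
  constructor
  · rintro rfl; funext i; simp [act]
  · rintro rfl; funext i; simp [act]

theorem UU_deriv (J : V → V → ℝ) (K : ℕ) (t : ℝ) (x y : Fin K → V) :
    HasDerivAt (fun u => UU J K u x y) ((UU J K t * LU J K) x y) t := by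
  unfold UU
  refine (exp_deriv J t _).congr_deriv ?_
  rw [Matrix.mul_apply]
  unfold LU
  simp only [Finset.mul_sum]
  symm
  rw [Finset.sum_comm]
  refine Finset.sum_congr rfl fun a _ => ?_
  rw [Finset.sum_comm]
  refine Finset.sum_congr rfl fun b _ => ?_
  have h1 : ∀ g : Perm V, (act (swap a b * g) x = y) ↔ (act g x = act (swap a b) y) := by
    intro g
    have h2 : act (swap a b * g) x = act (swap a b) (act g x) := rfl
    rw [h2, eq_comm, act_swap]
  simp only [h1]
  have h3 : ∀ z : Fin K → V, stirExp J t (fun g => if act g x = z then 1 else 0) *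
      (J a b / 2 * ((if y = act (swap a b) z then 1 else 0) - (if y = z then 1 else 0))) =
      (if z = act (swap a b) y then
        J a b / 2 * stirExp J t (fun g => if act g x = z then 1 else 0) else 0) -
      (if z = y then J a b / 2 * stirExp J t (fun g => if act g x = z then 1 else 0) else 0) := by
    intro z
    have h4 : (y = act (swap a b) z) ↔ (z = act (swap a b) y) := act_swap a b z y
    by_cases h5 : y = act (swap a b) z
    · rw [if_pos h5, if_pos (h4.1 h5)]
      by_cases h6 : y = z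
      · rw [if_pos h6, if_pos h6.symm]; ring
      · rw [if_neg h6, if_neg (Ne.symm h6)]; ring
    · rw [if_neg h5, if_neg (fun h => h5 (h4.2 h))]
      by_cases h6 : y = z
      · rw [if_pos h6, if_pos h6.symm]; ring
      · rw [if_neg h6, if_neg (Ne.symm h6)]; ring
  rw [Finset.sum_congr rfl fun z _ => h3 z, Finset.sum_sub_distrib, Finset.sum_ite_eq',
    Finset.sum_ite_eq', if_pos (Finset.mem_univ _), if_pos (Finset.mem_univ _)]
  ring

theorem UU_zero (J : V → V → ℝ) (K : ℕ) : UU J K 0 = 1 := by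
  ext x y
  unfold UU stirExp
  simp only [law_zero, ite_mul, one_mul, zero_mul]
  rw [Finset.sum_ite_eq', if_pos (Finset.mem_univ _), Matrix.one_apply]
  rfl

theorem UU_nonneg {J : V → V → ℝ} (hJ : ∀ x y, 0 ≤ J x y) (K : ℕ) {t : ℝ} (ht : 0 ≤ t)
    (x y : Fin K → V) : 0 ≤ UU J K t x y :=
  exp_nonneg hJ ht fun g => by split_ifs <;> norm_num

/-- generator of one particle -/
noncomputable def GG (J : V → V → ℝ) : Matrix V V ℝ :=
  fun a b => if a = b then -∑ c, J b c else J a b

/-- the kernel of one particle -/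
noncomputable def qq (J : V → V → ℝ) (t : ℝ) : Matrix V V ℝ := fun a b => hop J t a b

theorem gen_one {J : V → V → ℝ} (hs : ∀ x y, J x y = J y x) (h0 : ∀ x, J x x = 0)
    (f : V → ℝ) (b : V) :
    ∑ c, ∑ e, J c e / 2 * (f (swap c e b) - f b) = ∑ x, f x * GG J x b := by
  have h1 : ∀ c e, J c e / 2 * (f (swap c e b) - f b) =
      (if c = b then J b e / 2 * (f e - f b) else 0) +
      (if e = b then J c b / 2 * (f c - f b) else 0) := by
    intro c e
    by_cases hc : c = b
    · subst hc
      by_cases he : e = c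
      · subst he
        simp [h0]
      · rw [swap_apply_left, if_pos rfl, if_neg he, add_zero]
    · by_cases he : e = b
      · subst he
        rw [swap_apply_right, if_neg hc, if_pos rfl, zero_add]
      · rw [swap_apply_of_ne_of_ne (Ne.symm hc) (Ne.symm he), if_neg hc, if_neg he]
        ring
  simp only [h1, Finset.sum_add_distrib]
  have h2 : ∑ c, ∑ e, (if c = b then J b e / 2 * (f e - f b) else 0) =
      ∑ e, J b e / 2 * (f e - f b) := by
    rw [Finset.sum_comm]
    refine Finset.sum_congr rfl fun e _ => ?_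
    rw [Finset.sum_ite_eq', if_pos (Finset.mem_univ _)]
  have h3 : ∑ c, ∑ e, (if e = b then J c b / 2 * (f c - f b) else 0) =
      ∑ c, J c b / 2 * (f c - f b) := by
    refine Finset.sum_congr rfl fun c _ => ?_
    rw [Finset.sum_ite_eq', if_pos (Finset.mem_univ _)]
  rw [h2, h3, ← Finset.sum_add_distrib]
  have h4 : ∀ x, f x * GG J x b = J b x * f x - (if x = b then f x * ∑ c, J b c else 0) := by
    intro x
    unfold GG
    by_cases hx : x = b
    · subst hx
      rw [if_pos rfl, if_pos rfl, h0]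
      ring
    · rw [if_neg hx, if_neg hx, hs x b]
      ring
  simp only [h4, Finset.sum_sub_distrib]
  rw [Finset.sum_ite_eq', if_pos (Finset.mem_univ _), Finset.mul_sum, ← Finset.sum_sub_distrib]
  refine Finset.sum_congr rfl fun x _ => ?_
  rw [hs x b]
  ring

theorem qq_deriv {J : V → V → ℝ} (hs : ∀ x y, J x y = J y x) (h0 : ∀ x, J x x = 0) (t : ℝ)
    (a b : V) : HasDerivAt (fun u => qq J u a b) ((qq J t * GG J) a b) t := by
  unfold qq hop
  refine (exp_deriv J t _).congr_deriv ?_
  rw [Matrix.mul_apply, ← gen_one hs h0]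
  refine Finset.sum_congr rfl fun c _ => Finset.sum_congr rfl fun e _ => ?_
  have h1 : ∀ g : Perm V, ((swap c e * g) a = b) ↔ (g a = swap c e b) := by
    intro g
    rw [Perm.mul_apply]
    constructor
    · intro h; rw [← h, swap_apply_self]
    · intro h; rw [h, swap_apply_self]
  simp only [h1]

theorem qq_zero (J : V → V → ℝ) : qq J 0 = 1 := by
  ext x y
  unfold qq hop stirExp
  simp only [law_zero, ite_mul, one_mul, zero_mul]
  rw [Finset.sum_ite_eq', if_pos (Finset.mem_univ _), Matrix.one_apply]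
  rfl

theorem qq_nonneg {J : V → V → ℝ} (hJ : ∀ x y, 0 ≤ J x y) {t : ℝ} (ht : 0 ≤ t) (x y : V) :
    0 ≤ qq J t x y :=
  exp_nonneg hJ ht fun g => by split_ifs <;> norm_num

theorem qq_row (J : V → V → ℝ) (t : ℝ) (x : V) : ∑ y, qq J t x y = 1 := by
  unfold qq hop
  rw [exp_sum]
  have h : (fun g : Perm V => ∑ y, (if g x = y then (1 : ℝ) else 0)) = fun _ => 1 := by
    funext g
    rw [Finset.sum_ite_eq, if_pos (Finset.mem_univ _)]
  rw [h, exp_const]

theorem qq_add {J : V → V → ℝ} (hs : ∀ x y, J x y = J y x) (h0 : ∀ x, J x x = 0) (s t : ℝ) :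
    qq J (s + t) = qq J s * qq J t := by
  have h : ∀ u, qq J u = E (GG J) u := eq_E (qq_deriv hs h0) (qq_zero J)
  rw [h, h, h, E_add]

/-- the kernel of `K` independent particles -/
noncomputable def VV (J : V → V → ℝ) (K : ℕ) (t : ℝ) : Matrix (Fin K → V) (Fin K → V) ℝ :=
  fun x y => ∏ i, qq J t (x i) (y i)

/-- the generator of `K` independent particles -/
noncomputable def LV (J : V → V → ℝ) (K : ℕ) : Matrix (Fin K → V) (Fin K → V) ℝ :=
  fun z y => ∑ i, ∑ c, GG J c (y i) * (if z = Function.update y i c then 1 else 0)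

theorem VV_deriv {J : V → V → ℝ} (hs : ∀ x y, J x y = J y x) (h0 : ∀ x, J x x = 0) (K : ℕ)
    (t : ℝ) (x y : Fin K → V) :
    HasDerivAt (fun u => VV J K u x y) ((VV J K t * LV J K) x y) t := by
  unfold VV
  have h1 := HasDerivAt.fun_finsetProd (u := (Finset.univ : Finset (Fin K)))
    (f := fun i u => qq J u (x i) (y i)) (x := t) fun i _ => qq_deriv hs h0 t (x i) (y i)
  refine h1.congr_deriv ?_
  rw [Matrix.mul_apply]
  unfold LV
  simp only [Finset.mul_sum]
  rw [Finset.sum_comm]
  refine Finset.sum_congr rfl fun i _ => ?_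
  rw [Finset.sum_comm, Matrix.mul_apply, smul_eq_mul, Finset.mul_sum]
  refine Finset.sum_congr rfl fun c _ => ?_
  rw [Finset.sum_eq_single (Function.update y i c)]
  · rw [if_pos rfl, mul_one, ← Finset.mul_prod_erase Finset.univ _ (Finset.mem_univ i),
      Function.update_self]
    have h2 : ∏ j ∈ Finset.univ.erase i, qq J t (x j) (Function.update y i c j) =
        ∏ j ∈ Finset.univ.erase i, qq J t (x j) (y j) :=
      Finset.prod_congr rfl fun j hj => by
        rw [Function.update_of_ne (Finset.ne_of_mem_erase hj)]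
    rw [h2]
    ring
  · intro z _ hz; rw [if_neg hz, mul_zero, mul_zero]
  · intro h; exact absurd (Finset.mem_univ _) h

theorem VV_zero (J : V → V → ℝ) (K : ℕ) : VV J K 0 = 1 := by
  ext x y
  unfold VV
  rw [qq_zero, Matrix.one_apply]
  by_cases h : x = y
  · rw [if_pos h, h]
    exact Finset.prod_eq_one fun _ _ => Matrix.one_apply_eq _
  · rw [if_neg h]
    obtain ⟨i, hi⟩ := Function.ne_iff.1 h
    exact Finset.prod_eq_zero (Finset.mem_univ i) (Matrix.one_apply_ne hi)

theorem VV_nonneg {J : V → V → ℝ} (hJ : ∀ x y, 0 ≤ J x y) (K : ℕ) {t : ℝ} (ht : 0 ≤ t)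
    (x y : Fin K → V) : 0 ≤ VV J K t x y :=
  Finset.prod_nonneg fun i _ => qq_nonneg hJ ht _ _

end kernels

end Pool.Agent.Y998.ST
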