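import Pool.Agent.Y998.ST.Chain

/-!
# The cycle of a point followed for `K` steps is close to a random walk
-/

set_option autoImplicit false

namespace Pool.Agent.Y998.ST

open Finset Equiv

section main

variable {V : Type} [Fintype V] [DecidableEq V]

theorem mulVec_qq {J : V → V → ℝ} (hs : ∀ x y, J x y = J y x) (h0 : ∀ x, J x x = 0)
    (t u : ℝ) (p : ℕ) (b v : V) :
    ((qq J t ^ p).mulVec fun x => qq J u x b) v = qq J (p * t + u) v b := by
  rw [qq_pow hs h0, qq_add hs h0]
  rfl

theorem sum_qq {J : V → V → ℝ} (hs : ∀ x y, J x y = J y x) (h0 : ∀ x, J x x = 0)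
    (s u : ℝ) (a b : V) : ∑ e, qq J s a e * qq J u e b = qq J (s + u) a b := by
  rw [qq_add hs h0, Matrix.mul_apply]

theorem CS_kk {J : V → V → ℝ} (hs : ∀ x y, J x y = J y x) (h0 : ∀ x, J x x = 0) {K : ℕ}
    (v : V) (s t : ℝ) (i j : Fin K) (hij : i ≠ j) (a b : V) :
    CS K (kk J s t i j a b) v = qq J ((min (i : ℕ) j : ℕ) * t + (t - s)) v b *
      qq J (((max (i : ℕ) j - min (i : ℕ) j : ℕ) : ℝ) * t) (if i < j then a else b) b := by
  rcases lt_or_gt_of_ne hij with h | h
  · have hlt : (i : ℕ) < (j : ℕ) := h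
    rw [two_special (q := qq J t) (qq_row J t) (fun x => qq J (t - s) x b) (fun w => qq J s a w)
      (fun x => qq J (t - s) x b) (fun w => qq J s b w) (qq_row J s b) (i : ℕ) (j : ℕ) K
      (kk J s t i j a b) v hlt j.2
      (fun l hl hl' => by funext x w; unfold kk; rw [if_neg hl, if_neg hl'])
      (fun x w => by unfold kk; rw [if_pos rfl])
      (fun x w => by
        unfold kk
        have h1 : ¬ ((j : ℕ) = (i : ℕ)) := by omega
        rw [if_neg h1, if_pos rfl])]
    simp only [mulVec_qq hs h0]
    rw [sum_qq hs h0, if_pos h, min_eq_left hlt.le, max_eq_right hlt.le]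
    congr 2
    have h2 : ((j : ℕ) - (i : ℕ) - 1 : ℕ) = (j : ℕ) - (i : ℕ) - 1 := rfl
    have h3 : (((j : ℕ) - (i : ℕ) : ℕ) : ℝ) = (((j : ℕ) - (i : ℕ) - 1 : ℕ) : ℝ) + 1 := by
      have : (j : ℕ) - (i : ℕ) = ((j : ℕ) - (i : ℕ) - 1) + 1 := by omega
      exact_mod_cast this
    rw [h3]
    ring_nf
  · have hlt : (j : ℕ) < (i : ℕ) := h
    rw [two_special (q := qq J t) (qq_row J t) (fun x => qq J (t - s) x b) (fun w => qq J s b w)
      (fun x => qq J (t - s) x b) (fun w => qq J s a w) (qq_row J s a) (j : ℕ) (i : ℕ) K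
      (kk J s t i j a b) v hlt i.2
      (fun l hl hl' => by funext x w; unfold kk; rw [if_neg hl', if_neg hl])
      (fun x w => by
        unfold kk
        have h1 : ¬ ((j : ℕ) = (i : ℕ)) := by omega
        rw [if_neg h1, if_pos rfl])
      (fun x w => by unfold kk; rw [if_pos rfl])]
    simp only [mulVec_qq hs h0]
    have hnot : ¬ (i < j) := fun h' => absurd h (lt_asymm h')
    rw [sum_qq hs h0, if_neg hnot, min_eq_right hlt.le, max_eq_left hlt.le]
    congr 2
    have h3 : (((i : ℕ) - (j : ℕ) : ℕ) : ℝ) = (((i : ℕ) - (j : ℕ) - 1 : ℕ) : ℝ) + 1 := by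
      have : (i : ℕ) - (j : ℕ) = ((i : ℕ) - (j : ℕ) - 1) + 1 := by omega
      exact_mod_cast this
    rw [h3]
    ring_nf

/-- The rate at which a given pair of strands meets. -/
theorem pair_rate {J : V → V → ℝ} (hJ : ∀ x y, 0 ≤ J x y) (hs : ∀ x y, J x y = J y x)
    (h0 : ∀ x, J x x = 0) {K : ℕ} {r : ℝ} (hr : ∀ x, ∑ y, J x y ≤ r) (v : V) {s t : ℝ}
    (hst : s ≤ t) (ht : 0 ≤ t) (i j : Fin K) (hij : i ≠ j) (Q : ℕ → ℝ)
    (hQ : ∀ m, 0 < m → m < K → ∀ a b, qq J (m * t) a b ≤ Q m) :
    ∑ y : Fin K → V, ∑ z : Fin K → V, VV J K (t - s) (pre v y) (Function.update z i (z j)) *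
        J (z j) (z i) * VV J K s z y ≤ r * Q (max (i : ℕ) j - min (i : ℕ) j) := by
  obtain ⟨m, hm⟩ : ∃ m : ℕ, m = max (i : ℕ) j - min (i : ℕ) j := ⟨_, rfl⟩
  have hm0 : 0 < m ∧ m < K := by
    have h1 : (i : ℕ) ≠ j := fun h => hij (Fin.ext h)
    have h2 := i.2
    have h3 := j.2
    rw [hm]
    omega
  rw [← hm]
  simp only [sum_z hs h0 s t i j hij]
  have e1 : ∑ y : Fin K → V, ∑ a, ∑ b, J b a * ∏ l : Fin K, kk J s t i j a b l (pre v y l) (y l) =
      ∑ a, ∑ b, J b a * CS K (kk J s t i j a b) v := by
    rw [Finset.sum_comm]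
    refine Finset.sum_congr rfl fun a _ => ?_
    rw [Finset.sum_comm]
    refine Finset.sum_congr rfl fun b _ => ?_
    unfold CS
    rw [Finset.mul_sum]
  rw [e1]
  simp only [CS_kk hs h0 v s t i j hij, ← hm]
  obtain ⟨u, hu⟩ : ∃ u : ℝ, u = ((min (i : ℕ) j : ℕ) : ℝ) * t + (t - s) := ⟨_, rfl⟩
  have hu0 : 0 ≤ u := by rw [hu]; have : 0 ≤ t - s := by linarith
                         positivity
  rw [← hu]
  have hQ0 : 0 ≤ Q m := (qq_nonneg hJ (by positivity) v v).trans (hQ m hm0.1 hm0.2 v v)
  calc ∑ a, ∑ b, J b a * (qq J u v b * qq J (m * t) (if i < j then a else b) b)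
      ≤ ∑ a, ∑ b, J b a * (qq J u v b * Q m) :=
        Finset.sum_le_sum fun a _ => Finset.sum_le_sum fun b _ =>
          mul_le_mul_of_nonneg_left (mul_le_mul_of_nonneg_left (hQ m hm0.1 hm0.2 _ _)
            (qq_nonneg hJ hu0 _ _)) (hJ _ _)
    _ = ∑ b, (∑ a, J b a) * (qq J u v b * Q m) := by
        rw [Finset.sum_comm]
        refine Finset.sum_congr rfl fun b _ => ?_
        rw [Finset.sum_mul]
    _ ≤ ∑ b, r * (qq J u v b * Q m) :=
        Finset.sum_le_sum fun b _ => mul_le_mul_of_nonneg_right (hr b)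
          (mul_nonneg (qq_nonneg hJ hu0 _ _) hQ0)
    _ = r * ((∑ b, qq J u v b) * Q m) := by
        rw [← Finset.mul_sum, Finset.sum_mul]
    _ = r * Q m := by rw [qq_row, one_mul]

/-- The probability that two points of the walk coincide. -/
theorem coin_le {J : V → V → ℝ} (hJ : ∀ x y, 0 ≤ J x y) (hs : ∀ x y, J x y = J y x)
    (h0 : ∀ x, J x x = 0) {K : ℕ} (v : V) {t : ℝ} (ht : 0 ≤ t) (i j : Fin K) (hij : i < j)
    (Q : ℕ → ℝ) (hQ : ∀ m, 0 < m → m < K → ∀ a b, qq J (m * t) a b ≤ Q m) :
    ∑ y : Fin K → V, (if y i = y j then VV J K t (pre v y) y else 0) ≤ Q ((j : ℕ) - i) := by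
  have hlt : (i : ℕ) < (j : ℕ) := hij
  obtain ⟨k, hk⟩ : ∃ k : V → ℕ → V → V → ℝ, k = fun a l x w =>
    if l = (i : ℕ) then qq J t x a * (if w = a then 1 else 0) else
    if l = (j : ℕ) then qq J t x a * (if w = a then 1 else 0) else qq J t x w := ⟨_, rfl⟩
  have e1 : ∀ y : Fin K → V, (if y i = y j then VV J K t (pre v y) y else 0) ≤
      ∑ a, ∏ l : Fin K, k a l (pre v y l) (y l) := by
    intro y
    have hnn : ∀ a, 0 ≤ ∏ l : Fin K, k a l (pre v y l) (y l) := by
      intro a
      refine Finset.prod_nonneg fun l _ => ?_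
      rw [hk]
      simp only
      have h1 : ∀ x b, 0 ≤ qq J t x b := fun x b => qq_nonneg hJ ht x b
      split_ifs
      · rw [mul_one]; exact h1 _ _
      · rw [mul_zero]
      · rw [mul_one]; exact h1 _ _
      · rw [mul_zero]
      · exact h1 _ _
    by_cases h : y i = y j
    · rw [if_pos h]
      refine le_trans (le_of_eq ?_) (Finset.single_le_sum (fun a _ => hnn a)
        (Finset.mem_univ (y i)))
      unfold VV
      refine Finset.prod_congr rfl fun l _ => ?_
      rw [hk]
      simp only
      by_cases hli : (l : ℕ) = i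
      · have : l = i := Fin.ext hli
        subst this
        rw [if_pos rfl, if_pos rfl, mul_one]
      · rw [if_neg hli]
        by_cases hlj : (l : ℕ) = j
        · have : l = j := Fin.ext hlj
          subst this
          rw [if_pos rfl, h, if_pos rfl, mul_one]
        · rw [if_neg hlj]
    · rw [if_neg h]
      exact Finset.sum_nonneg fun a _ => hnn a
  refine (Finset.sum_le_sum fun y _ => e1 y).trans ?_
  rw [Finset.sum_comm]
  have e2 : ∀ a, ∑ y : Fin K → V, ∏ l : Fin K, k a l (pre v y l) (y l) =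
      qq J ((i : ℕ) * t + t) v a * qq J ((((j : ℕ) - (i : ℕ) : ℕ) : ℝ) * t) a a := by
    intro a
    have h1 := two_special (q := qq J t) (qq_row J t) (fun x => qq J t x a)
      (fun w => if w = a then 1 else 0) (fun x => qq J t x a) (fun w => if w = a then 1 else 0)
      (by rw [Finset.sum_ite_eq', if_pos (Finset.mem_univ _)]) (i : ℕ) (j : ℕ) K (k a) v hlt j.2
      (fun l hl hl' => by funext x w; rw [hk]; simp only; rw [if_neg hl, if_neg hl'])
      (fun x w => by rw [hk]; simp only [if_true])
      (fun x w => by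
        have h1 : ¬ ((j : ℕ) = (i : ℕ)) := by omega
        rw [hk]
        simp only [if_neg h1, if_true])
    unfold CS at h1
    rw [h1]
    simp only [mulVec_qq hs h0, ite_mul, one_mul, zero_mul]
    rw [Finset.sum_ite_eq', if_pos (Finset.mem_univ _)]
    congr 2
    have h3 : (((j : ℕ) - (i : ℕ) : ℕ) : ℝ) = (((j : ℕ) - (i : ℕ) - 1 : ℕ) : ℝ) + 1 := by
      have : (j : ℕ) - (i : ℕ) = ((j : ℕ) - (i : ℕ) - 1) + 1 := by omega
      exact_mod_cast this
    rw [h3]
    ring
  simp only [e2]
  have hm : 0 < (j : ℕ) - i ∧ (j : ℕ) - i < K := by have := j.2; omega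
  calc ∑ a, qq J ((i : ℕ) * t + t) v a * qq J ((((j : ℕ) - (i : ℕ) : ℕ) : ℝ) * t) a a
      ≤ ∑ a, qq J ((i : ℕ) * t + t) v a * Q ((j : ℕ) - i) :=
        Finset.sum_le_sum fun a _ => mul_le_mul_of_nonneg_left (hQ _ hm.1 hm.2 _ _)
          (qq_nonneg hJ (by positivity) _ _)
    _ = Q ((j : ℕ) - i) := by rw [← Finset.sum_mul, qq_row, one_mul]

theorem pairs_le {K : ℕ} (Q : ℕ → ℝ) (hQ : ∀ m, 0 < m → m < K → 0 ≤ Q m) :
    ∑ i : Fin K, ∑ j : Fin K, (if i < j then Q ((j : ℕ) - i) else 0) ≤
      K * ∑ m ∈ Finset.Ioo 0 K, Q m := by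
  have h1 : ∀ i : Fin K, ∑ j : Fin K, (if i < j then Q ((j : ℕ) - i) else 0) ≤
      ∑ m ∈ Finset.Ioo 0 K, Q m := by
    intro i
    rw [← Finset.sum_filter]
    have h2 : ∑ j : Fin K with i < j, Q ((j : ℕ) - i) =
        ∑ m ∈ (Finset.univ.filter fun j : Fin K => i < j).image (fun j : Fin K => (j : ℕ) - i),
          Q m := by
      rw [Finset.sum_image]
      intro a ha b hb hab
      have ha' : (i : ℕ) < a := (Finset.mem_filter.1 ha).2
      have hb' : (i : ℕ) < b := (Finset.mem_filter.1 hb).2
      apply Fin.ext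
      simp only at hab
      omega
    rw [h2]
    refine Finset.sum_le_sum_of_subset_of_nonneg ?_ fun m hm _ => ?_
    · intro m hm
      obtain ⟨j, hj, rfl⟩ := Finset.mem_image.1 hm
      have hj' : (i : ℕ) < j := (Finset.mem_filter.1 hj).2
      have := j.2
      rw [Finset.mem_Ioo]
      omega
    · rw [Finset.mem_Ioo] at hm
      exact hQ m hm.1 hm.2
  refine (Finset.sum_le_sum fun i _ => h1 i).trans (le_of_eq ?_)
  rw [Finset.sum_const, Finset.card_univ, Fintype.card_fin, nsmul_eq_mul]

omit [Fintype V] [DecidableEq V] in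
theorem pre_zero {K : ℕ} (v : V) (y : Fin K → V) (h : 0 < K) : pre v y ⟨0, h⟩ = v := rfl

omit [Fintype V] [DecidableEq V] in
theorem pre_succ {K : ℕ} (v : V) (y : Fin K → V) (l : ℕ) (h : l + 1 < K) :
    pre v y ⟨l + 1, h⟩ = y ⟨l, by omega⟩ := rfl

omit [Fintype V] [DecidableEq V] in
theorem act_pre {K : ℕ} (g : Perm V) (v : V) (y : Fin K → V) :
    act g (pre v y) = y ↔ ∀ i : Fin K, (g ^ ((i : ℕ) + 1)) v = y i := by
  constructor
  · intro h
    have key : ∀ (l : ℕ) (hl : l < K), (g ^ (l + 1)) v = y ⟨l, hl⟩ := by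
      intro l
      induction l with
      | zero =>
        intro hl
        rw [← h]
        rfl
      | succ l ih =>
        intro hl
        rw [pow_succ', Perm.mul_apply, ih (by omega)]
        exact congrFun h ⟨l + 1, hl⟩
    exact fun i => key i i.2
  · intro h
    funext i
    obtain ⟨l, hl⟩ := i
    cases l with
    | zero =>
      rw [← h ⟨0, hl⟩]
      rfl
    | succ l =>
      rw [← h ⟨l + 1, hl⟩]
      show g (y ⟨l, by omega⟩) = _
      rw [← h ⟨l, by omega⟩, ← Perm.mul_apply, ← pow_succ']

/-- The general theorem. -/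
theorem main_gen {J : V → V → ℝ} (hJ : ∀ x y, 0 ≤ J x y) (hs : ∀ x y, J x y = J y x)
    (h0 : ∀ x, J x x = 0) {K : ℕ} {r : ℝ} (hr : ∀ x, ∑ y, J x y ≤ r) (hr0 : 0 ≤ r) (v : V)
    {t : ℝ} (ht : 0 ≤ t) (Q : ℕ → ℝ)
    (hQ : ∀ m, 0 < m → m < K → ∀ a b, qq J (m * t) a b ≤ Q m) :
    stirExp J t (fun g => if cycleLen g v < K then 1 else 0) ≤
      (1 + 2 * r * t) * (K * ∑ m ∈ Finset.Ioo 0 K, Q m) ∧
    ∑ y : Fin K → V, |stirExp J t (fun g => if ∀ i : Fin K, (g ^ ((i : ℕ) + 1)) v = y i
      then 1 else 0) - ∏ i : Fin K, hop J t (pre v y i) (y i)| ≤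
      2 * ((1 + 2 * r * t) * (K * ∑ m ∈ Finset.Ioo 0 K, Q m)) := by
  have hQ0 : ∀ m, 0 < m → m < K → 0 ≤ Q m := fun m h1 h2 =>
    (qq_nonneg hJ (by positivity) v v).trans (hQ m h1 h2 v v)
  obtain ⟨P, hP⟩ : ∃ P : ℝ, P = K * ∑ m ∈ Finset.Ioo 0 K, Q m := ⟨_, rfl⟩
  have hpairs := pairs_le Q hQ0
  rw [← hP] at hpairs ⊢
  have hpairs' : ∑ i : Fin K, ∑ j : Fin K, (if j < i then Q ((i : ℕ) - j) else 0) ≤ P := by
    rw [Finset.sum_comm]; exact hpairs
  have hC : ∀ s, 0 ≤ s → s ≤ t → ∑ i : Fin K, ∑ j : Fin K, (if i = j then 0 else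
      ∑ y : Fin K → V, ∑ z : Fin K → V, VV J K (t - s) (pre v y) (Function.update z i (z j)) *
        J (z j) (z i) * VV J K s z y) ≤ 2 * r * P := by
    intro s hs0 hst
    have h1 : ∀ i j : Fin K, (if i = j then 0 else
      ∑ y : Fin K → V, ∑ z : Fin K → V, VV J K (t - s) (pre v y) (Function.update z i (z j)) *
        J (z j) (z i) * VV J K s z y) ≤
        r * (if i < j then Q ((j : ℕ) - i) else 0) + r * (if j < i then Q ((i : ℕ) - j) else 0) := by
      intro i j
      by_cases hij : i = j
      · subst hij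
        rw [if_pos rfl, if_neg (lt_irrefl _)]
        simp
      · rw [if_neg hij]
        refine (pair_rate hJ hs h0 hr v hst ht i j hij Q hQ).trans (le_of_eq ?_)
        rcases lt_or_gt_of_ne hij with h | h
        · have hlt : (i : ℕ) < (j : ℕ) := h
          rw [if_pos h, if_neg (lt_asymm h), max_eq_right hlt.le, min_eq_left hlt.le]
          ring
        · have hlt : (j : ℕ) < (i : ℕ) := h
          rw [if_pos h, if_neg (lt_asymm h), max_eq_left hlt.le, min_eq_right hlt.le]
          ring
    refine (Finset.sum_le_sum fun i _ => Finset.sum_le_sum fun j _ => h1 i j).trans ?_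
    simp only [Finset.sum_add_distrib, ← Finset.mul_sum]
    have := mul_le_mul_of_nonneg_left hpairs hr0
    have := mul_le_mul_of_nonneg_left hpairs' hr0
    linarith
  obtain ⟨W, hW0, hWU, hWV, hWm⟩ := kill_main hJ hs h0 hr v ht hC
  -- the mass of the non-injective chains
  have hVtot : ∑ y : Fin K → V, VV J K t (pre v y) y = 1 :=
    CS_stoch (q := qq J t) (qq_row J t) K v
  have hVn : ∀ y : Fin K → V, 0 ≤ VV J K t (pre v y) y := fun y => VV_nonneg hJ K ht _ _
  have hbad : ∑ y with ¬ Function.Injective y, VV J K t (pre v y) y ≤ P := by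
    rw [Finset.sum_filter]
    have h1 : ∀ y : Fin K → V, (if ¬ Function.Injective y then VV J K t (pre v y) y else 0) ≤
        ∑ i : Fin K, ∑ j : Fin K, (if i < j then (if y i = y j then VV J K t (pre v y) y else 0)
          else 0) := by
      intro y
      have hnn : ∀ i j : Fin K, 0 ≤ (if i < j then
          (if y i = y j then VV J K t (pre v y) y else 0) else 0) := by
        intro i j
        split_ifs
        · exact hVn y
        · exact le_rfl
        · exact le_rfl
      by_cases h : Function.Injective y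
      · rw [if_neg (not_not.2 h)]
        exact Finset.sum_nonneg fun i _ => Finset.sum_nonneg fun j _ => hnn i j
      · rw [if_pos h]
        have h2 : ∃ i j : Fin K, i < j ∧ y i = y j := by
          unfold Function.Injective at h
          push Not at h
          obtain ⟨a, b, hab, hne⟩ := h
          rcases lt_or_gt_of_ne hne with h' | h'
          · exact ⟨a, b, h', hab⟩
          · exact ⟨b, a, h', hab.symm⟩
        obtain ⟨i, j, hij, hy⟩ := h2
        calc VV J K t (pre v y) y = (if i < j then
              (if y i = y j then VV J K t (pre v y) y else 0) else 0) := by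
              rw [if_pos hij, if_pos hy]
          _ ≤ ∑ j : Fin K, (if i < j then (if y i = y j then VV J K t (pre v y) y else 0)
              else 0) := Finset.single_le_sum (f := fun j => (if i < j then
                (if y i = y j then VV J K t (pre v y) y else 0) else 0))
                (fun j _ => hnn i j) (Finset.mem_univ j)
          _ ≤ _ := Finset.single_le_sum (f := fun i => ∑ j : Fin K, (if i < j then
                (if y i = y j then VV J K t (pre v y) y else 0) else 0))
                (fun i _ => Finset.sum_nonneg fun j _ => hnn i j) (Finset.mem_univ i)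
    refine (Finset.sum_le_sum fun y _ => h1 y).trans (le_trans ?_ hpairs)
    rw [Finset.sum_comm]
    refine Finset.sum_le_sum fun i _ => ?_
    rw [Finset.sum_comm]
    refine Finset.sum_le_sum fun j _ => ?_
    by_cases hij : i < j
    · simp only [if_pos hij]
      exact coin_le hJ hs h0 v ht i j hij Q hQ
    · simp only [if_neg hij]
      rw [Finset.sum_const_zero]
  have hsplit : ∑ y with Function.Injective y, VV J K t (pre v y) y +
      ∑ y with ¬ Function.Injective y, VV J K t (pre v y) y = 1 := by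
    rw [← hVtot]
    exact Finset.sum_filter_add_sum_filter_not Finset.univ (fun y : Fin K → V =>
      Function.Injective y) _
  have hWlow : 1 - (1 + 2 * r * t) * P ≤ ∑ y with Function.Injective y, W y := by
    have : (1 + 2 * r * t) * P = P + 2 * r * P * t := by ring
    rw [this]
    linarith
  have hUW : ∑ y with Function.Injective y, W y ≤
      ∑ y with Function.Injective y, UU J K t (pre v y) y :=
    Finset.sum_le_sum fun y hy => hWU y (Finset.mem_filter.1 hy).2
  constructor
  · have h1 : ∑ y with Function.Injective y, UU J K t (pre v y) y ≤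
        stirExp J t (fun g => if K ≤ cycleLen g v then 1 else 0) := by
      unfold UU
      rw [exp_sum]
      refine exp_mono hJ ht fun g => ?_
      by_cases hex : ∃ y : Fin K → V, Function.Injective y ∧ act g (pre v y) = y
      · obtain ⟨y, hy, hgy⟩ := hex
        have h2 : ∀ z : Fin K → V, act g (pre v z) = z → z = y := by
          intro z hz
          funext i
          rw [← (act_pre g v z).1 hz i, (act_pre g v y).1 hgy i]
        have h3 : ∑ z : Fin K → V with Function.Injective z,
            (if act g (pre v z) = z then (1 : ℝ) else 0) =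
            1 := by
          rw [Finset.sum_eq_single y]
          · rw [if_pos hgy]
          · intro z _ hz
            rw [if_neg (fun h => hz (h2 z h))]
          · intro h
            exact absurd (Finset.mem_filter.2 ⟨Finset.mem_univ _, hy⟩) h
        rw [h3, if_pos]
        unfold cycleLen
        have h4 : Function.Injective (fun i : Fin K => (⟨y i, by
            rw [← (act_pre g v y).1 hgy i]
            exact ⟨((i : ℕ) + 1 : ℕ), by rw [zpow_natCast]⟩⟩ : {w : V // g.SameCycle v w})) := by
          intro a b hab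
          exact hy (congrArg Subtype.val hab)
        have h5 := Nat.card_le_card_of_injective _ h4
        rwa [Nat.card_eq_fintype_card, Fintype.card_fin] at h5
      · rw [Finset.sum_eq_zero]
        · split_ifs <;> norm_num
        · intro z hz
          rw [if_neg]
          exact fun h => hex ⟨z, (Finset.mem_filter.1 hz).2, h⟩
    have h2 : stirExp J t (fun g => if cycleLen g v < K then 1 else 0) +
        stirExp J t (fun g => if K ≤ cycleLen g v then 1 else 0) = 1 := by
      refine Eq.trans ?_ (exp_const J t 1)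
      unfold stirExp
      rw [← Finset.sum_add_distrib]
      refine Finset.sum_congr rfl fun g _ => ?_
      simp only
      by_cases h : cycleLen g v < K
      · rw [if_pos h, if_neg (not_le.2 h)]; ring
      · rw [if_neg h, if_pos (not_lt.1 h)]; ring
    linarith
  · have e1 : ∀ y : Fin K → V, stirExp J t (fun g => if ∀ i : Fin K,
        (g ^ ((i : ℕ) + 1)) v = y i then 1 else 0) = UU J K t (pre v y) y := by
      intro y
      unfold UU
      simp only [act_pre]
    have e2 : ∀ y : Fin K → V, ∏ i : Fin K, hop J t (pre v y i) (y i) =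
        VV J K t (pre v y) y := fun y => rfl
    simp only [e1, e2]
    have hUtot : ∑ y : Fin K → V, UU J K t (pre v y) y = 1 := by
      unfold UU
      rw [exp_sum]
      have h3 : (fun g : Perm V => ∑ y : Fin K → V, (if act g (pre v y) = y then (1 : ℝ) else 0)) =
          fun _ => 1 := by
        funext g
        rw [Finset.sum_eq_single (fun i : Fin K => (g ^ ((i : ℕ) + 1)) v)]
        · rw [if_pos]
          rw [act_pre]
          exact fun i => rfl
        · intro z _ hz
          rw [if_neg]
          intro h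
          apply hz
          funext i
          rw [(act_pre g v z).1 h i]
        · intro h; exact absurd (Finset.mem_univ _) h
      rw [h3, exp_const]
    have hUn : ∀ y : Fin K → V, 0 ≤ UU J K t (pre v y) y := fun y => UU_nonneg hJ K ht _ _
    have h4 : ∀ y : Fin K → V, |UU J K t (pre v y) y - VV J K t (pre v y) y| ≤
        UU J K t (pre v y) y + VV J K t (pre v y) y -
          2 * (if Function.Injective y then W y else 0) := by
      intro y
      by_cases hy : Function.Injective y
      · rw [if_pos hy, abs_le]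
        have := hWU y hy
        have := hWV y hy
        constructor <;> linarith
      · rw [if_neg hy, abs_le]
        have := hUn y
        have := hVn y
        constructor <;> linarith
    refine (Finset.sum_le_sum fun y _ => h4 y).trans ?_
    rw [Finset.sum_sub_distrib, Finset.sum_add_distrib, hUtot, hVtot, ← Finset.mul_sum,
      ← Finset.sum_filter]
    linarith

end main

end Pool.Agent.Y998.ST
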