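import Pool.Agent.Y998.ST.Kill

/-!
# Sums over chains
-/

set_option autoImplicit false

namespace Pool.Agent.Y998.ST

open Finset Equiv

section chain

variable {V : Type} [Fintype V]

/-- sum over all chains of length `n` started at `v` -/
noncomputable def CS (n : ℕ) (k : ℕ → V → V → ℝ) (v : V) : ℝ :=
  ∑ y : Fin n → V, ∏ l : Fin n, k l (pre v y l) (y l)

theorem CS_zero (k : ℕ → V → V → ℝ) (v : V) : CS 0 k v = 1 := by
  unfold CS
  simp

theorem CS_succ (n : ℕ) (k : ℕ → V → V → ℝ) (v : V) :
    CS (n + 1) k v = ∑ a, k 0 v a * CS n (fun l => k (l + 1)) a := by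
  unfold CS
  rw [← (Fin.consEquiv (fun _ : Fin (n + 1) => V)).sum_comp, Fintype.sum_prod_type]
  refine Finset.sum_congr rfl fun a _ => ?_
  rw [Finset.mul_sum]
  refine Finset.sum_congr rfl fun y _ => ?_
  have e1 : (Fin.consEquiv (fun _ : Fin (n + 1) => V)) (a, y) = Fin.cons a y := rfl
  rw [e1, Fin.prod_univ_succ]
  congr 1

variable [DecidableEq V]

omit [DecidableEq V] in
theorem CS_stoch {q : Matrix V V ℝ} (hq : ∀ x, ∑ y, q x y = 1) (n : ℕ) (v : V) :
    CS n (fun _ => q) v = 1 := by
  induction n generalizing v with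
  | zero => exact CS_zero _ v
  | succ n ih =>
    rw [CS_succ]
    simp only [ih, mul_one]
    exact hq v

theorem one_special {q : Matrix V V ℝ} (hq : ∀ x, ∑ y, q x y = 1) (A B : V → ℝ)
    (hB : ∑ b, B b = 1) (p : ℕ) : ∀ (n : ℕ) (k : ℕ → V → V → ℝ) (v : V), p < n →
      (∀ l, l ≠ p → k l = q) → (∀ x w, k p x w = A x * B w) →
      CS n k v = ((q ^ p).mulVec A) v := by
  induction p with
  | zero =>
    intro n k v hn hk hp
    obtain ⟨m, rfl⟩ : ∃ m, n = m + 1 := ⟨n - 1, by omega⟩
    have h1 : (fun l => k (l + 1)) = fun _ => (q : V → V → ℝ) := by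
      funext l; exact hk (l + 1) (by omega)
    rw [CS_succ, h1]
    simp only [CS_stoch hq, mul_one, hp]
    rw [← Finset.mul_sum, hB, mul_one, pow_zero, Matrix.one_mulVec]
  | succ p ih =>
    intro n k v hn hk hp
    obtain ⟨m, rfl⟩ : ∃ m, n = m + 1 := ⟨n - 1, by omega⟩
    rw [CS_succ, hk 0 (by omega)]
    have h1 : ∀ a, CS m (fun l => k (l + 1)) a = ((q ^ p).mulVec A) a := fun a =>
      ih m (fun l => k (l + 1)) a (by omega) (fun l hl => hk (l + 1) (by omega)) hp
    simp only [h1]
    rw [pow_succ', ← Matrix.mulVec_mulVec]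
    rfl

theorem two_special {q : Matrix V V ℝ} (hq : ∀ x, ∑ y, q x y = 1) (A B A' B' : V → ℝ)
    (hB : ∑ b, B' b = 1) (m : ℕ) : ∀ (p n : ℕ) (k : ℕ → V → V → ℝ) (v : V), m < p → p < n →
      (∀ l, l ≠ m → l ≠ p → k l = q) → (∀ x w, k m x w = A x * B w) →
      (∀ x w, k p x w = A' x * B' w) →
      CS n k v = ((q ^ m).mulVec A) v * ∑ e, B e * ((q ^ (p - m - 1)).mulVec A') e := by
  induction m with
  | zero =>
    intro p n k v hmp hn hk hm hp
    obtain ⟨m, rfl⟩ : ∃ m, n = m + 1 := ⟨n - 1, by omega⟩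
    have h1 : ∀ a, CS m (fun l => k (l + 1)) a = ((q ^ (p - 1)).mulVec A') a := fun a =>
      one_special hq A' B' hB (p - 1) m (fun l => k (l + 1)) a (by omega)
        (fun l hl => hk (l + 1) (by omega) (by omega))
        (fun x w => by
          have h2 : p - 1 + 1 = p := by omega
          simp only [h2]
          exact hp x w)
    rw [CS_succ]
    simp only [h1, hm]
    rw [pow_zero, Matrix.one_mulVec, Nat.sub_zero, Finset.mul_sum]
    refine Finset.sum_congr rfl fun a _ => ?_
    ring
  | succ m ih =>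
    intro p n k v hmp hn hk hm hp
    obtain ⟨n', rfl⟩ : ∃ n', n = n' + 1 := ⟨n - 1, by omega⟩
    obtain ⟨p', rfl⟩ : ∃ p', p = p' + 1 := ⟨p - 1, by omega⟩
    rw [CS_succ, hk 0 (by omega) (by omega)]
    have h1 : ∀ a, CS n' (fun l => k (l + 1)) a = ((q ^ m).mulVec A) a *
        ∑ e, B e * ((q ^ (p' - m - 1)).mulVec A') e := fun a =>
      ih p' n' (fun l => k (l + 1)) a (by omega) (by omega)
        (fun l hl hl' => hk (l + 1) (by omega) (by omega)) hm hp
    simp only [h1]
    have h2 : p' + 1 - (m + 1) - 1 = p' - m - 1 := by omega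
    rw [h2, pow_succ' q m, ← Matrix.mulVec_mulVec]
    simp only [← mul_assoc]
    rw [← Finset.sum_mul]
    rfl

end chain

section stir

variable {V : Type} [Fintype V] [DecidableEq V]

theorem qq_pow {J : V → V → ℝ} (hs : ∀ x y, J x y = J y x) (h0 : ∀ x, J x x = 0) (t : ℝ)
    (p : ℕ) : qq J t ^ p = qq J (p * t) := by
  induction p with
  | zero => rw [pow_zero, Nat.cast_zero, zero_mul, qq_zero]
  | succ p ih =>
    rw [pow_succ, ih, ← qq_add hs h0]
    congr 1
    push_cast
    ring

/-- the kernel of a chain with a marked pair -/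
noncomputable def kk (J : V → V → ℝ) (s t : ℝ) (i j : ℕ) (a b : V) : ℕ → V → V → ℝ :=
  fun l x w => if l = i then qq J (t - s) x b * qq J s a w else
    if l = j then qq J (t - s) x b * qq J s b w else qq J t x w

theorem sum_z {J : V → V → ℝ} (hs : ∀ x y, J x y = J y x) (h0 : ∀ x, J x x = 0) {K : ℕ}
    (s t : ℝ) (i j : Fin K) (hij : i ≠ j) (x y : Fin K → V) :
    ∑ z : Fin K → V, VV J K (t - s) x (Function.update z i (z j)) * J (z j) (z i) *
      VV J K s z y = ∑ a, ∑ b, J b a * ∏ l : Fin K, kk J s t i j a b l (x l) (y l) := by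
  obtain ⟨f, hf⟩ : ∃ f : V → V → Fin K → V → ℝ, f = fun a b l c =>
      if l = i then (if c = a then qq J (t - s) (x l) b * qq J s a (y l) else 0) else
      if l = j then (if c = b then qq J (t - s) (x l) b * qq J s b (y l) else 0) else
      qq J (t - s) (x l) c * qq J s c (y l) := ⟨_, rfl⟩
  have h1 : ∀ (a b : V) (l : Fin K), ∑ c, f a b l c = kk J s t i j a b l (x l) (y l) := by
    intro a b l
    rw [hf]
    unfold kk
    simp only
    by_cases hli : l = i
    · simp only [hli, if_true]
      rw [Finset.sum_ite_eq', if_pos (Finset.mem_univ _)]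
    · have hli' : ¬ ((l : ℕ) = (i : ℕ)) := fun h => hli (Fin.ext h)
      simp only [if_neg hli, if_neg hli']
      by_cases hlj : l = j
      · simp only [hlj, if_true]
        rw [Finset.sum_ite_eq', if_pos (Finset.mem_univ _)]
      · have hlj' : ¬ ((l : ℕ) = (j : ℕ)) := fun h => hlj (Fin.ext h)
        simp only [if_neg hlj, if_neg hlj']
        have h2 : qq J t = qq J (t - s) * qq J s := by
          rw [← qq_add hs h0]; congr 1; ring
        rw [h2, Matrix.mul_apply]
  have h2 : ∀ a b : V, ∏ l : Fin K, kk J s t i j a b l (x l) (y l) =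
      ∑ z : Fin K → V, ∏ l, f a b l (z l) := by
    intro a b
    rw [← Finset.prod_congr rfl fun l _ => h1 a b l, Finset.prod_univ_sum,
      Fintype.piFinset_univ]
  simp only [h2, Finset.mul_sum]
  symm
  rw [Finset.sum_congr rfl fun a _ => Finset.sum_comm, Finset.sum_comm]
  refine Finset.sum_congr rfl fun z _ => ?_
  have h3 : ∀ a b : V, (a ≠ z i ∨ b ≠ z j) → ∏ l, f a b l (z l) = 0 := by
    intro a b hab
    rcases hab with h | h
    · refine Finset.prod_eq_zero (Finset.mem_univ i) ?_
      rw [hf]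
      simp only [if_true, if_neg (Ne.symm h)]
    · refine Finset.prod_eq_zero (Finset.mem_univ j) ?_
      rw [hf]
      simp only [if_neg (Ne.symm hij), if_true, if_neg (Ne.symm h)]
  rw [Finset.sum_eq_single (z i), Finset.sum_eq_single (z j)]
  · have h4 : ∏ l, f (z i) (z j) l (z l) =
        VV J K (t - s) x (Function.update z i (z j)) * VV J K s z y := by
      unfold VV
      rw [← Finset.prod_mul_distrib]
      refine Finset.prod_congr rfl fun l _ => ?_
      rw [hf]
      simp only
      by_cases hli : l = i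
      · subst hli
        rw [if_pos rfl, if_pos rfl, Function.update_self]
      · rw [if_neg hli, Function.update_of_ne hli]
        by_cases hlj : l = j
        · subst hlj
          rw [if_pos rfl, if_pos rfl]
        · rw [if_neg hlj]
    rw [h4]
    ring
  · intro b _ hb
    rw [h3 _ _ (Or.inr hb), mul_zero]
  · intro h; exact absurd (Finset.mem_univ _) h
  · intro a _ ha
    refine Finset.sum_eq_zero fun b _ => ?_
    rw [h3 _ _ (Or.inl ha), mul_zero]
  · intro h; exact absurd (Finset.mem_univ _) h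


end stir

end Pool.Agent.Y998.ST
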