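import Mathlib

/-!
# Comparison of semigroups on finite sets

`E M t` is the exponential of `t • M`.  If a family of kernels `Y` satisfies `Y' = Y L` and
`W t = exp (-c t) E M t` with `M` nonnegative and concentrated on `A`, and `L ≥ M - c` on the
columns in `A`, then `W ≤ Y` on the columns in `A`, with a quantitative converse.
-/

set_option autoImplicit false

namespace Pool.Agent.Y998.ST

open Finset

section expo

variable {S : Type} [Fintype S]

/-- evaluation of a matrix at an entry -/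
theorem entry_deriv {F : ℝ → Matrix S S ℝ} {F' : Matrix S S ℝ} {t : ℝ} (x y : S)
    (h : HasDerivAt F F' t) : HasDerivAt (fun u => F u x y) (F' x y) t := by
  have h1 := (hasDerivAt_pi.1 h) x
  exact (hasDerivAt_pi.1 h1) y

variable [DecidableEq S]

open scoped Matrix.Norms.Operator in
/-- the exponential of `t • M` -/
noncomputable def E (M : Matrix S S ℝ) (t : ℝ) : Matrix S S ℝ := NormedSpace.exp (t • M)

open scoped Matrix.Norms.Operator in
theorem E_zero (M : Matrix S S ℝ) : E M 0 = 1 := by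
  unfold E; rw [zero_smul, NormedSpace.exp_zero]

open scoped Matrix.Norms.Operator in
theorem E_add (M : Matrix S S ℝ) (s t : ℝ) : E M (s + t) = E M s * E M t := by
  unfold E
  rw [add_smul]
  exact Matrix.exp_add_of_commute _ _ (((Commute.refl M).smul_left s).smul_right t)

open scoped Matrix.Norms.Operator in
theorem E_deriv (M : Matrix S S ℝ) (t : ℝ) (x y : S) :
    HasDerivAt (fun u => E M u x y) ((M * E M t) x y) t :=
  entry_deriv x y (hasDerivAt_exp_smul_const' M t)

open scoped Matrix.Norms.Operator in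
theorem E_deriv' (M : Matrix S S ℝ) (t : ℝ) (x y : S) :
    HasDerivAt (fun u => E M u x y) ((E M t * M) x y) t :=
  entry_deriv x y (hasDerivAt_exp_smul_const M t)

open scoped Matrix.Norms.Operator in
theorem E_hasSum (M : Matrix S S ℝ) (t : ℝ) (x y : S) :
    HasSum (fun n : ℕ => t ^ n / (n.factorial : ℝ) * (M ^ n) x y) (E M t x y) := by
  have h1 := NormedSpace.exp_series_hasSum_exp' (𝕂 := ℝ) (t • M)
  have h2 : HasSum (fun n : ℕ => ((n.factorial : ℝ)⁻¹ • (t • M) ^ n) x y)
      ((NormedSpace.exp (t • M)) x y) := by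
    have h3 := (Pi.hasSum.1 h1) x
    exact (Pi.hasSum.1 h3) y
  have h4 : (fun n : ℕ => t ^ n / (n.factorial : ℝ) * (M ^ n) x y) =
      fun n : ℕ => ((n.factorial : ℝ)⁻¹ • (t • M) ^ n) x y := by
    funext n
    rw [smul_pow, Matrix.smul_apply, Matrix.smul_apply, smul_eq_mul, smul_eq_mul]
    ring
  rw [h4]
  exact h2

theorem pow_nonneg' {M : Matrix S S ℝ} (hM : ∀ x y, 0 ≤ M x y) (n : ℕ) (x y : S) :
    0 ≤ (M ^ n) x y := by
  induction n generalizing x y with
  | zero => rw [pow_zero, Matrix.one_apply]; split_ifs <;> norm_num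
  | succ n ih =>
    rw [pow_succ, Matrix.mul_apply]
    exact Finset.sum_nonneg fun z _ => mul_nonneg (ih x z) (hM z y)

theorem E_nonneg {M : Matrix S S ℝ} (hM : ∀ x y, 0 ≤ M x y) {t : ℝ} (ht : 0 ≤ t) (x y : S) :
    0 ≤ E M t x y :=
  (E_hasSum M t x y).nonneg fun n => mul_nonneg (by positivity) (pow_nonneg' hM n x y)

theorem E_support {M : Matrix S S ℝ} {A : S → Prop} (hM : ∀ x y, ¬ A x → M x y = 0) (t : ℝ)
    {x y : S} (hx : ¬ A x) (hy : A y) : E M t x y = 0 := by
  have h1 : ∀ n : ℕ, (M ^ n) x y = 0 := by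
    intro n
    cases n with
    | zero =>
      rw [pow_zero, Matrix.one_apply_ne]
      rintro rfl
      exact hx hy
    | succ n =>
      rw [pow_succ', Matrix.mul_apply]
      exact Finset.sum_eq_zero fun z _ => by rw [hM x z hx, zero_mul]
  have h2 := E_hasSum M t x y
  simp only [h1, mul_zero] at h2
  exact h2.unique hasSum_zero

/-- the interpolation between two semigroups -/
theorem interp_deriv {Y : ℝ → Matrix S S ℝ} {L : Matrix S S ℝ}
    (hY : ∀ t x y, HasDerivAt (fun u => Y u x y) ((Y t * L) x y) t) (M : Matrix S S ℝ) (c t s : ℝ)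
    (x y : S) :
    HasDerivAt (fun u => ∑ z, Y (t - u) x z * (Real.exp (-(c * u)) * E M u z y))
      (-∑ z, ∑ z', Y (t - s) x z * (L z z' - (M z z' - if z = z' then c else 0)) *
        (Real.exp (-(c * s)) * E M s z' y)) s := by
  have hexp : HasDerivAt (fun u : ℝ => Real.exp (-(c * u))) (Real.exp (-(c * s)) * (-c)) s := by
    have h2 : HasDerivAt (fun u : ℝ => -(c * u)) (-(c * 1)) s :=
      ((hasDerivAt_id' s).const_mul c).fun_neg
    rw [mul_one] at h2
    exact h2.exp
  have h1 : ∀ z : S, HasDerivAt (fun u => Y (t - u) x z * (Real.exp (-(c * u)) * E M u z y))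
      (-((Y (t - s) * L) x z) * (Real.exp (-(c * s)) * E M s z y) +
        Y (t - s) x z * (Real.exp (-(c * s)) * (-c) * E M s z y +
          Real.exp (-(c * s)) * (M * E M s) z y)) s := by
    intro z
    have h3 : HasDerivAt (fun u : ℝ => Y (t - u) x z) (-((Y (t - s) * L) x z)) s := by
      have h4 : HasDerivAt (fun u : ℝ => Y (t - u) x z) ((-1 : ℝ) • (Y (t - s) * L) x z) s :=
        (hY (t - s) x z).scomp s ((hasDerivAt_id' s).const_sub t)
      rwa [neg_smul, one_smul] at h4
    exact h3.mul (hexp.mul (E_deriv M s z y))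
  have h5 := HasDerivAt.fun_sum (u := Finset.univ) fun z _ => h1 z
  refine h5.congr_deriv ?_
  rw [Finset.sum_add_distrib]
  have e1 : ∑ z, -((Y (t - s) * L) x z) * (Real.exp (-(c * s)) * E M s z y) =
      -∑ z, ∑ z', Y (t - s) x z * L z z' * (Real.exp (-(c * s)) * E M s z' y) := by
    rw [Finset.sum_comm, ← Finset.sum_neg_distrib]
    refine Finset.sum_congr rfl fun z' _ => ?_
    rw [Matrix.mul_apply, neg_mul, Finset.sum_mul]
  have e2 : ∑ z, Y (t - s) x z * (Real.exp (-(c * s)) * (-c) * E M s z y +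
          Real.exp (-(c * s)) * (M * E M s) z y) =
      ∑ z, ∑ z', Y (t - s) x z * (M z z' - if z = z' then c else 0) *
        (Real.exp (-(c * s)) * E M s z' y) := by
    refine Finset.sum_congr rfl fun z _ => ?_
    rw [Matrix.mul_apply]
    have e3 : ∀ z', Y (t - s) x z * (M z z' - if z = z' then c else 0) *
        (Real.exp (-(c * s)) * E M s z' y) =
        Y (t - s) x z * Real.exp (-(c * s)) * (M z z' * E M s z' y) +
        (if z = z' then Y (t - s) x z * Real.exp (-(c * s)) * (-c) * E M s z' y else 0) := by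
      intro z'
      split_ifs <;> ring
    rw [Finset.sum_congr rfl fun z' _ => e3 z', Finset.sum_add_distrib, Finset.sum_ite_eq,
      if_pos (Finset.mem_univ z), ← Finset.mul_sum]
    ring
  rw [e1, e2, ← Finset.sum_neg_distrib, ← Finset.sum_add_distrib, ← Finset.sum_neg_distrib]
  refine Finset.sum_congr rfl fun z _ => ?_
  rw [← Finset.sum_neg_distrib, ← Finset.sum_add_distrib, ← Finset.sum_neg_distrib]
  refine Finset.sum_congr rfl fun z' _ => ?_
  ring

/-- Domination of the killed semigroup. -/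
theorem killed_le {Y : ℝ → Matrix S S ℝ} {L : Matrix S S ℝ}
    (hY : ∀ t x y, HasDerivAt (fun u => Y u x y) ((Y t * L) x y) t) (hY0 : Y 0 = 1)
    (hYn : ∀ t, 0 ≤ t → ∀ x y, 0 ≤ Y t x y) {M : Matrix S S ℝ} {A : S → Prop} {c : ℝ}
    (hM : ∀ x y, 0 ≤ M x y) (hMA : ∀ x y, ¬ A x → M x y = 0)
    (hL : ∀ z z', A z' → M z z' - (if z = z' then c else 0) ≤ L z z') {t : ℝ} (ht : 0 ≤ t)
    (x y : S) (hy : A y) : Real.exp (-(c * t)) * E M t x y ≤ Y t x y := by
  obtain ⟨f, hf⟩ : ∃ f : ℝ → ℝ, f = fun u => ∑ z, Y (t - u) x z *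
    (Real.exp (-(c * u)) * E M u z y) := ⟨_, rfl⟩
  have hd : ∀ s, HasDerivAt f (-∑ z, ∑ z', Y (t - s) x z *
      (L z z' - (M z z' - if z = z' then c else 0)) * (Real.exp (-(c * s)) * E M s z' y)) s := by
    intro s; rw [hf]; exact interp_deriv hY M c t s x y
  have hanti : AntitoneOn f (Set.Icc 0 t) := by
    refine antitoneOn_of_deriv_nonpos (convex_Icc 0 t)
      (fun s _ => (hd s).continuousAt.continuousWithinAt)
      (fun s _ => (hd s).differentiableAt.differentiableWithinAt) fun s hs => ?_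
    rw [interior_Icc] at hs
    rw [(hd s).deriv, neg_nonpos]
    refine Finset.sum_nonneg fun z _ => Finset.sum_nonneg fun z' _ => ?_
    by_cases hz : A z'
    · refine mul_nonneg (mul_nonneg (hYn _ (by linarith [hs.2]) _ _) ?_)
        (mul_nonneg (Real.exp_pos _).le (E_nonneg hM hs.1.le _ _))
      linarith [hL z z' hz]
    · rw [E_support hMA s hz hy, mul_zero, mul_zero]
  have h0 : f 0 = Y t x y := by
    rw [hf]
    simp only [sub_zero, mul_zero, neg_zero, Real.exp_zero, one_mul, E_zero]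
    rw [Finset.sum_eq_single y]
    · rw [Matrix.one_apply_eq, mul_one]
    · intro z _ hz; rw [Matrix.one_apply_ne hz, mul_zero]
    · intro h; exact absurd (Finset.mem_univ y) h
  have h1 : f t = Real.exp (-(c * t)) * E M t x y := by
    rw [hf]
    simp only [sub_self, hY0]
    rw [Finset.sum_eq_single x]
    · rw [Matrix.one_apply_eq, one_mul]
    · intro z _ hz; rw [Matrix.one_apply_ne (Ne.symm hz), zero_mul]
    · intro h; exact absurd (Finset.mem_univ x) h
  rw [← h0, ← h1]
  exact hanti (Set.left_mem_Icc.2 ht) (Set.right_mem_Icc.2 ht) ht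

/-- Quantitative converse, summed over a family of pairs `(x i, y i)` with `A (y i)`. -/
theorem killed_ge {Y : ℝ → Matrix S S ℝ} {L : Matrix S S ℝ}
    (hY : ∀ t x y, HasDerivAt (fun u => Y u x y) ((Y t * L) x y) t) (hY0 : Y 0 = 1)
    {M : Matrix S S ℝ} {c : ℝ} {ι : Type} (I : Finset ι) (X Z : ι → S) {t C : ℝ} (ht : 0 ≤ t)
    (hC : ∀ s, 0 ≤ s → s ≤ t → ∑ i ∈ I, ∑ z, ∑ z', Y (t - s) (X i) z *
      (L z z' - (M z z' - if z = z' then c else 0)) * (Real.exp (-(c * s)) * E M s z' (Z i)) ≤ C) :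
    ∑ i ∈ I, Y t (X i) (Z i) ≤ ∑ i ∈ I, Real.exp (-(c * t)) * E M t (X i) (Z i) + C * t := by
  obtain ⟨f, hf⟩ : ∃ f : ℝ → ℝ, f = fun u => ∑ i ∈ I, (∑ z, Y (t - u) (X i) z *
    (Real.exp (-(c * u)) * E M u z (Z i))) + C * u := ⟨_, rfl⟩
  have hd : ∀ s, HasDerivAt f (∑ i ∈ I, (-∑ z, ∑ z', Y (t - s) (X i) z *
      (L z z' - (M z z' - if z = z' then c else 0)) * (Real.exp (-(c * s)) * E M s z' (Z i))) +
        C) s := by
    intro s; rw [hf]
    have h1 := HasDerivAt.fun_sum (u := I) fun i _ => interp_deriv hY M c t s (X i) (Z i)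
    have h2 : HasDerivAt (fun u : ℝ => C * u) C s := by
      simpa using (hasDerivAt_id s).const_mul C
    exact h1.add h2
  have hmono : MonotoneOn f (Set.Icc 0 t) := by
    refine monotoneOn_of_deriv_nonneg (convex_Icc 0 t)
      (fun s _ => (hd s).continuousAt.continuousWithinAt)
      (fun s _ => (hd s).differentiableAt.differentiableWithinAt) fun s hs => ?_
    rw [interior_Icc] at hs
    rw [(hd s).deriv, Finset.sum_neg_distrib]
    have := hC s hs.1.le hs.2.le
    linarith
  have h0 : f 0 = ∑ i ∈ I, Y t (X i) (Z i) := by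
    rw [hf]
    simp only [sub_zero, mul_zero, neg_zero, Real.exp_zero, one_mul, E_zero, add_zero]
    refine Finset.sum_congr rfl fun i _ => ?_
    rw [Finset.sum_eq_single (Z i)]
    · rw [Matrix.one_apply_eq, mul_one]
    · intro z _ hz; rw [Matrix.one_apply_ne hz, mul_zero]
    · intro h; exact absurd (Finset.mem_univ _) h
  have h1 : f t = ∑ i ∈ I, Real.exp (-(c * t)) * E M t (X i) (Z i) + C * t := by
    rw [hf]
    simp only [sub_self, hY0]
    congr 1
    refine Finset.sum_congr rfl fun i _ => ?_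
    rw [Finset.sum_eq_single (X i)]
    · rw [Matrix.one_apply_eq, one_mul]
    · intro z _ hz; rw [Matrix.one_apply_ne (Ne.symm hz), zero_mul]
    · intro h; exact absurd (Finset.mem_univ _) h
  rw [← h0, ← h1]
  exact hmono (Set.left_mem_Icc.2 ht) (Set.right_mem_Icc.2 ht) ht

/-- A kernel with `Y' = Y G`, `Y 0 = 1` is the exponential. -/
theorem eq_E {Y : ℝ → Matrix S S ℝ} {G : Matrix S S ℝ}
    (hY : ∀ t x y, HasDerivAt (fun u => Y u x y) ((Y t * G) x y) t) (hY0 : Y 0 = 1) (t : ℝ) :
    Y t = E G t := by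
  ext x y
  obtain ⟨f, hf⟩ : ∃ f : ℝ → ℝ, f = fun u => ∑ z, Y (t - u) x z *
    (Real.exp (-(0 * u)) * E G u z y) := ⟨_, rfl⟩
  have hd : ∀ s, HasDerivAt f 0 s := by
    intro s; rw [hf]
    have h1 := interp_deriv hY G 0 t s x y
    simpa using h1
  have hc := is_const_of_deriv_eq_zero (fun s => (hd s).differentiableAt) (fun s => (hd s).deriv)
  have h0 : f 0 = Y t x y := by
    rw [hf]
    simp only [sub_zero, mul_zero, neg_zero, Real.exp_zero, one_mul, E_zero]
    rw [Finset.sum_eq_single y]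
    · rw [Matrix.one_apply_eq, mul_one]
    · intro z _ hz; rw [Matrix.one_apply_ne hz, mul_zero]
    · intro h; exact absurd (Finset.mem_univ y) h
  have h1 : f t = E G t x y := by
    rw [hf]
    simp only [sub_self, hY0, zero_mul, neg_zero, Real.exp_zero, one_mul]
    rw [Finset.sum_eq_single x]
    · rw [Matrix.one_apply_eq, one_mul]
    · intro z _ hz; rw [Matrix.one_apply_ne (Ne.symm hz), zero_mul]
    · intro h; exact absurd (Finset.mem_univ x) h
  rw [← h0, ← h1]
  exact hc 0 t

end expo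

end Pool.Agent.Y998.ST
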