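import Pool.Agent.Y998.ST.Stir

/-!
# The killed semigroup
-/

set_option autoImplicit false

namespace Pool.Agent.Y998.ST

open Finset Equiv

section kill

variable {V : Type} [Fintype V] [DecidableEq V]

/-- particles jump to empty sites only; killed otherwise -/
noncomputable def MW (J : V → V → ℝ) (K : ℕ) (c : ℝ) : Matrix (Fin K → V) (Fin K → V) ℝ :=
  fun z y => if Function.Injective z ∧ Function.Injective y then
    LV J K z y + (if z = y then c else 0) else 0

theorem LV_term {J : V → V → ℝ} (hJ : ∀ x y, 0 ≤ J x y) {K : ℕ} {z y : Fin K → V} (h : z ≠ y)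
    (i : Fin K) (c : V) : 0 ≤ GG J c (y i) * (if z = Function.update y i c then (1 : ℝ) else 0) := by
  by_cases h1 : z = Function.update y i c
  · rw [if_pos h1, mul_one]
    unfold GG
    have h2 : c ≠ y i := by
      rintro rfl
      rw [Function.update_eq_self] at h1
      exact h h1
    rw [if_neg h2]
    exact hJ _ _
  · rw [if_neg h1, mul_zero]

theorem LV_offdiag {J : V → V → ℝ} (hJ : ∀ x y, 0 ≤ J x y) {K : ℕ} {z y : Fin K → V}
    (h : z ≠ y) : 0 ≤ LV J K z y :=
  Finset.sum_nonneg fun i _ => Finset.sum_nonneg fun c _ => LV_term hJ h i c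

theorem LV_diag (J : V → V → ℝ) {K : ℕ} (y : Fin K → V) :
    LV J K y y = -∑ i, ∑ c, J (y i) c := by
  unfold LV
  rw [← Finset.sum_neg_distrib]
  refine Finset.sum_congr rfl fun i _ => ?_
  rw [Finset.sum_eq_single (y i)]
  · rw [Function.update_eq_self, if_pos rfl, mul_one]
    unfold GG
    rw [if_pos rfl]
  · intro c _ hc
    rw [if_neg, mul_zero]
    intro h
    have := congrFun h i
    rw [Function.update_self] at this
    exact hc this.symm
  · intro h; exact absurd (Finset.mem_univ _) h

theorem MW_nonneg {J : V → V → ℝ} (hJ : ∀ x y, 0 ≤ J x y) {K : ℕ} {r c : ℝ}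
    (hr : ∀ x, ∑ y, J x y ≤ r) (hc : K * r ≤ c) (z y : Fin K → V) : 0 ≤ MW J K c z y := by
  unfold MW
  split_ifs with h h1
  · subst h1
    rw [LV_diag]
    have : ∑ i, ∑ c, J (z i) c ≤ ∑ _i : Fin K, r := Finset.sum_le_sum fun i _ => hr _
    rw [Finset.sum_const, Finset.card_univ, Fintype.card_fin, nsmul_eq_mul] at this
    linarith
  · rw [add_zero]; exact LV_offdiag hJ h1
  · exact le_rfl

theorem MW_zero {J : V → V → ℝ} {K : ℕ} {c : ℝ} (z y : Fin K → V)
    (h : ¬ Function.Injective z) : MW J K c z y = 0 := by
  unfold MW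
  rw [if_neg]
  exact fun h' => h h'.1

theorem comp_V {J : V → V → ℝ} (hJ : ∀ x y, 0 ≤ J x y) {K : ℕ} {c : ℝ} (z z' : Fin K → V)
    (hz' : Function.Injective z') :
    MW J K c z z' - (if z = z' then c else 0) ≤ LV J K z z' := by
  unfold MW
  by_cases hz : Function.Injective z
  · rw [if_pos ⟨hz, hz'⟩]
    linarith
  · have hne : z ≠ z' := by rintro rfl; exact hz hz'
    rw [if_neg (fun h => hz h.1), if_neg hne, sub_zero]
    exact LV_offdiag hJ hne

theorem LU_offdiag {J : V → V → ℝ} (hJ : ∀ x y, 0 ≤ J x y) {K : ℕ} {z y : Fin K → V}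
    (h : z ≠ y) : 0 ≤ LU J K z y := by
  unfold LU
  refine Finset.sum_nonneg fun a _ => Finset.sum_nonneg fun b _ => ?_
  rw [if_neg (Ne.symm h), sub_zero]
  exact mul_nonneg (by linarith [hJ a b]) (by split_ifs <;> norm_num)

theorem LU_diag {J : V → V → ℝ} (hJ : ∀ x y, 0 ≤ J x y) (hs : ∀ x y, J x y = J y x) {K : ℕ}
    (y : Fin K → V) : LV J K y y ≤ LU J K y y := by
  rw [LV_diag]
  unfold LU
  have h1 : ∀ a b : V, -∑ i, (J a b / 2 * ((if y i = a then 1 else 0) +
      (if y i = b then (1 : ℝ) else 0))) ≤
      J a b / 2 * ((if y = act (swap a b) y then 1 else 0) - (if y = y then 1 else 0)) := by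
    intro a b
    rw [if_pos rfl]
    have h0 : 0 ≤ J a b / 2 := by linarith [hJ a b]
    by_cases h : y = act (swap a b) y
    · rw [if_pos h, sub_self, mul_zero, neg_nonpos]
      refine Finset.sum_nonneg fun i _ => mul_nonneg h0 ?_
      split_ifs <;> norm_num
    · rw [if_neg h, zero_sub, mul_neg, mul_one, neg_le_neg_iff]
      obtain ⟨i, hi⟩ := Function.ne_iff.1 h
      have h2 : (1 : ℝ) ≤ (if y i = a then 1 else 0) + (if y i = b then (1 : ℝ) else 0) := by
        by_cases ha : y i = a
        · rw [if_pos ha]
          have : (0 : ℝ) ≤ (if y i = b then (1 : ℝ) else 0) := by split_ifs <;> norm_num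
          linarith
        · by_cases hb : y i = b
          · rw [if_pos hb, if_neg ha, zero_add]
          · exact absurd (swap_apply_of_ne_of_ne ha hb).symm hi
      calc J a b / 2 = J a b / 2 * 1 := (mul_one _).symm
        _ ≤ J a b / 2 * ((if y i = a then 1 else 0) + (if y i = b then (1 : ℝ) else 0)) :=
            mul_le_mul_of_nonneg_left h2 h0
        _ ≤ _ := Finset.single_le_sum (f := fun i => J a b / 2 *
            ((if y i = a then 1 else 0) + (if y i = b then (1 : ℝ) else 0)))
            (fun i _ => mul_nonneg h0 (by split_ifs <;> norm_num)) (Finset.mem_univ i)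
  refine le_trans (le_of_eq ?_) (Finset.sum_le_sum fun a _ => Finset.sum_le_sum fun b _ => h1 a b)
  simp only [Finset.sum_neg_distrib, neg_inj]
  have h2 : ∑ a, ∑ b, ∑ i, (J a b / 2 * ((if y i = a then 1 else 0) +
      (if y i = b then (1 : ℝ) else 0))) =
      ∑ i, ∑ a, ∑ b, (J a b / 2 * ((if y i = a then 1 else 0) +
      (if y i = b then (1 : ℝ) else 0))) := by
    rw [Finset.sum_congr rfl fun a _ => Finset.sum_comm, Finset.sum_comm]
  rw [h2]
  refine Finset.sum_congr rfl fun i _ => ?_
  simp only [mul_add, Finset.sum_add_distrib, mul_ite, mul_one, mul_zero]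
  have h3 : ∑ a, ∑ b, (if y i = a then J a b / 2 else 0) = ∑ b, J (y i) b / 2 := by
    rw [Finset.sum_comm]
    refine Finset.sum_congr rfl fun b _ => ?_
    rw [Finset.sum_ite_eq, if_pos (Finset.mem_univ _)]
  have h4 : ∑ a, ∑ b, (if y i = b then J a b / 2 else 0) = ∑ a, J a (y i) / 2 := by
    refine Finset.sum_congr rfl fun a _ => ?_
    rw [Finset.sum_ite_eq, if_pos (Finset.mem_univ _)]
  rw [h3, h4, ← Finset.sum_add_distrib]
  refine Finset.sum_congr rfl fun b _ => ?_
  rw [hs b (y i)]
  ring

theorem comp_U {J : V → V → ℝ} (hJ : ∀ x y, 0 ≤ J x y) (hs : ∀ x y, J x y = J y x) {K : ℕ}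
    {c : ℝ} (z z' : Fin K → V) (hz' : Function.Injective z') :
    MW J K c z z' - (if z = z' then c else 0) ≤ LU J K z z' := by
  by_cases hne : z = z'
  · subst hne
    refine le_trans (le_of_eq ?_) (LU_diag hJ hs z)
    unfold MW
    rw [if_pos ⟨hz', hz'⟩]
    ring
  rw [if_neg hne, sub_zero]
  unfold MW
  by_cases hz : Function.Injective z
  swap
  · rw [if_neg (fun h => hz h.1)]
    exact LU_offdiag hJ hne
  rw [if_pos ⟨hz, hz'⟩, if_neg hne, add_zero]
  by_cases hex : ∃ i c, z = Function.update z' i c
  swap
  · refine le_trans (le_of_eq ?_) (LU_offdiag hJ hne)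
    unfold LV
    refine Finset.sum_eq_zero fun i _ => Finset.sum_eq_zero fun c _ => ?_
    rw [if_neg (fun h => hex ⟨i, c, h⟩), mul_zero]
  obtain ⟨i, c, hic⟩ := hex
  have hc : c ≠ z' i := by
    rintro rfl
    rw [Function.update_eq_self] at hic
    exact hne hic
  have hzi : z i = c := by rw [hic, Function.update_self]
  have hzj : ∀ j, j ≠ i → z j = z' j := fun j hj => by rw [hic, Function.update_of_ne hj]
  have h1 : LV J K z z' = J c (z' i) := by
    unfold LV
    rw [Finset.sum_eq_single i, Finset.sum_eq_single c]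
    · rw [if_pos hic, mul_one]
      unfold GG
      rw [if_neg hc]
    · intro e _ he
      rw [if_neg, mul_zero]
      intro h
      rw [h, Function.update_self] at hzi
      exact he hzi
    · intro h; exact absurd (Finset.mem_univ _) h
    · intro j _ hj
      refine Finset.sum_eq_zero fun e _ => ?_
      rw [if_neg, mul_zero]
      intro h
      have h2 : z i = z' i := by rw [h, Function.update_of_ne (Ne.symm hj)]
      exact hc (hzi.symm.trans h2)
    · intro h; exact absurd (Finset.mem_univ _) h
  have h2 : z' = act (swap c (z' i)) z := by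
    funext j
    by_cases hj : j = i
    · subst hj
      show z' j = swap c (z' j) (z j)
      rw [hzi, swap_apply_left]
    · show z' j = swap c (z' i) (z j)
      rw [swap_apply_of_ne_of_ne, hzj j hj]
      · intro h3
        exact hj (hz (h3.trans hzi.symm))
      · rw [hzj j hj]
        intro h3
        exact hj (hz' h3)
  rw [h1]
  unfold LU
  simp only [if_neg (Ne.symm hne), sub_zero]
  have hnn : ∀ a b : V, 0 ≤ J a b / 2 * (if z' = act (swap a b) z then (1 : ℝ) else 0) :=
    fun a b => mul_nonneg (by linarith [hJ a b]) (by split_ifs <;> norm_num)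
  have h3 : J c (z' i) / 2 ≤ ∑ b, J c b / 2 * (if z' = act (swap c b) z then (1 : ℝ) else 0) := by
    refine le_trans (le_of_eq ?_) (Finset.single_le_sum (fun b _ => hnn c b)
      (Finset.mem_univ (z' i)))
    rw [if_pos h2, mul_one]
  have h4 : J c (z' i) / 2 ≤
      ∑ b, J (z' i) b / 2 * (if z' = act (swap (z' i) b) z then (1 : ℝ) else 0) := by
    refine le_trans (le_of_eq ?_) (Finset.single_le_sum (fun b _ => hnn (z' i) b)
      (Finset.mem_univ c))
    rw [swap_comm, if_pos h2, mul_one, hs]
  have h5 := Finset.sum_le_sum_of_subset_of_nonneg (Finset.subset_univ ({c, z' i} : Finset V))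
    (f := fun a => ∑ b, J a b / 2 * (if z' = act (swap a b) z then (1 : ℝ) else 0))
    (fun a _ _ => Finset.sum_nonneg fun b _ => hnn a b)
  rw [Finset.sum_pair hc] at h5
  linarith

/-- the rate of killing -/
theorem rate_le {J : V → V → ℝ} (hJ : ∀ x y, 0 ≤ J x y) {K : ℕ} {c : ℝ} (z z' : Fin K → V)
    (hz' : Function.Injective z') :
    LV J K z z' - (MW J K c z z' - (if z = z' then c else 0)) ≤
      ∑ i, ∑ j, if i = j then 0 else
        J (z' j) (z' i) * (if z = Function.update z' i (z' j) then 1 else 0) := by
  have hnn : ∀ i j : Fin K, 0 ≤ (if i = j then 0 else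
      J (z' j) (z' i) * (if z = Function.update z' i (z' j) then (1 : ℝ) else 0)) := by
    intro i j
    split_ifs
    · exact le_rfl
    · rw [mul_one]; exact hJ _ _
    · rw [mul_zero]
  unfold MW
  by_cases hz : Function.Injective z
  · rw [if_pos ⟨hz, hz'⟩]
    have : LV J K z z' - (LV J K z z' + (if z = z' then c else 0) - if z = z' then c else 0) = 0 := by
      ring
    rw [this]
    exact Finset.sum_nonneg fun i _ => Finset.sum_nonneg fun j _ => hnn i j
  have hne : z ≠ z' := by rintro rfl; exact hz hz'
  rw [if_neg (fun h => hz h.1), if_neg hne, sub_zero, sub_zero]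
  unfold LV
  refine Finset.sum_le_sum fun i _ => ?_
  by_cases hex : ∃ c, z = Function.update z' i c
  swap
  · refine le_trans (le_of_eq ?_) (Finset.sum_nonneg fun j _ => hnn i j)
    refine Finset.sum_eq_zero fun e _ => ?_
    rw [if_neg (fun h => hex ⟨e, h⟩), mul_zero]
  obtain ⟨e, he⟩ := hex
  have hei : e ≠ z' i := by
    rintro rfl
    rw [Function.update_eq_self] at he
    exact hne he
  have hzi : z i = e := by rw [he, Function.update_self]
  have h1 : ∑ c, GG J c (z' i) * (if z = Function.update z' i c then (1 : ℝ) else 0) =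
      J e (z' i) := by
    rw [Finset.sum_eq_single e]
    · rw [if_pos he, mul_one]
      unfold GG
      rw [if_neg hei]
    · intro f _ hf
      rw [if_neg, mul_zero]
      intro h
      rw [h, Function.update_self] at hzi
      exact hf hzi
    · intro h; exact absurd (Finset.mem_univ _) h
  have h2 : ∃ j, j ≠ i ∧ z' j = e := by
    by_contra hcon
    push Not at hcon
    apply hz
    intro a b hab
    by_cases ha : a = i
    · by_cases hb : b = i
      · rw [ha, hb]
      · rw [ha, hzi, he, Function.update_of_ne hb] at hab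
        exact absurd hab.symm (hcon b hb)
    · by_cases hb : b = i
      · rw [hb, hzi, he, Function.update_of_ne ha] at hab
        exact absurd hab (hcon a ha)
      · rw [he, Function.update_of_ne ha, Function.update_of_ne hb] at hab
        exact hz' hab
  obtain ⟨j, hji, hje⟩ := h2
  rw [h1]
  refine le_trans (le_of_eq ?_) (Finset.single_le_sum (fun j _ => hnn i j) (Finset.mem_univ j))
  rw [if_neg (Ne.symm hji), hje, if_pos he, mul_one]

/-- starting positions of the strands of the path `v, y 0, y 1, ...` -/
def pre {K : ℕ} (v : V) (y : Fin K → V) : Fin K → V :=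
  fun i => (Fin.cons v y : Fin (K + 1) → V) i.castSucc

/-- The total mass of the killed chains. -/
theorem kill_main {J : V → V → ℝ} (hJ : ∀ x y, 0 ≤ J x y) (hs : ∀ x y, J x y = J y x)
    (h0 : ∀ x, J x x = 0) {K : ℕ} {r : ℝ} (hr : ∀ x, ∑ y, J x y ≤ r) (v : V) {t C : ℝ}
    (ht : 0 ≤ t)
    (hC : ∀ s, 0 ≤ s → s ≤ t → ∑ i : Fin K, ∑ j : Fin K, (if i = j then 0 else
      ∑ y : Fin K → V, ∑ z : Fin K → V, VV J K (t - s) (pre v y) (Function.update z i (z j)) *
        J (z j) (z i) * VV J K s z y) ≤ C) :
    ∃ W : (Fin K → V) → ℝ, (∀ y, Function.Injective y → 0 ≤ W y) ∧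
      (∀ y, Function.Injective y → W y ≤ UU J K t (pre v y) y) ∧
      (∀ y, Function.Injective y → W y ≤ VV J K t (pre v y) y) ∧
      ∑ y with Function.Injective y, VV J K t (pre v y) y ≤
        ∑ y with Function.Injective y, W y + C * t := by
  obtain ⟨c, hc⟩ : ∃ c : ℝ, c = K * r := ⟨_, rfl⟩
  have hMn := MW_nonneg hJ hr hc.ge (K := K)
  have hM0 : ∀ z y : Fin K → V, ¬ Function.Injective z → MW J K c z y = 0 :=
    fun z y h => MW_zero z y h
  have hVle : ∀ u, 0 ≤ u → ∀ x y : Fin K → V, Function.Injective y →
      Real.exp (-(c * u)) * E (MW J K c) u x y ≤ VV J K u x y := fun u hu x y hy =>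
    killed_le (VV_deriv hs h0 K) (VV_zero J K) (fun t ht => VV_nonneg hJ K ht)
      hMn hM0 (fun z z' hz' => comp_V hJ z z' hz') hu x y hy
  refine ⟨fun y => Real.exp (-(c * t)) * E (MW J K c) t (pre v y) y, fun y _ =>
    mul_nonneg (Real.exp_pos _).le (E_nonneg hMn ht _ _), fun y hy => ?_, fun y hy =>
    hVle t ht _ y hy, ?_⟩
  · exact killed_le (UU_deriv J K) (UU_zero J K) (fun t ht => UU_nonneg hJ K ht)
      hMn hM0 (fun z z' hz' => comp_U hJ hs z z' hz') ht _ y hy
  · refine killed_ge (VV_deriv hs h0 K) (VV_zero J K) _ (fun y => pre v y) (fun y => y) ht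
      fun s hs0 hst => le_trans ?_ (hC s hs0 hst)
    have h1 : ∀ y : Fin K → V, Function.Injective y →
        ∑ z, ∑ z', VV J K (t - s) (pre v y) z *
          (LV J K z z' - (MW J K c z z' - if z = z' then c else 0)) *
            (Real.exp (-(c * s)) * E (MW J K c) s z' y) ≤
        ∑ i : Fin K, ∑ j : Fin K, (if i = j then 0 else
          ∑ z : Fin K → V, VV J K (t - s) (pre v y) (Function.update z i (z j)) *
            J (z j) (z i) * VV J K s z y) := by
      intro y hy
      have h2 : ∀ z z' : Fin K → V, VV J K (t - s) (pre v y) z *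
          (LV J K z z' - (MW J K c z z' - if z = z' then c else 0)) *
            (Real.exp (-(c * s)) * E (MW J K c) s z' y) ≤
          ∑ i : Fin K, ∑ j : Fin K, (if i = j then 0 else
            VV J K (t - s) (pre v y) z *
            (J (z' j) (z' i) * (if z = Function.update z' i (z' j) then 1 else 0)) *
            VV J K s z' y) := by
        intro z z'
        by_cases hz' : Function.Injective z'
        · have hv1 := VV_nonneg hJ K (t := t - s) (by linarith) (pre v y) z
          have hv2 := VV_nonneg hJ K hs0 z' y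
          have hw := hVle s hs0 z' y hy
          have hw0 : 0 ≤ Real.exp (-(c * s)) * E (MW J K c) s z' y :=
            mul_nonneg (Real.exp_pos _).le (E_nonneg hMn hs0 _ _)
          have hr' := rate_le (c := c) hJ z z' hz'
          have hr0 : 0 ≤ LV J K z z' - (MW J K c z z' - if z = z' then c else 0) := by
            have := comp_V (c := c) hJ z z' hz'
            linarith
          calc _ ≤ VV J K (t - s) (pre v y) z * (∑ i, ∑ j, if i = j then 0 else
                  J (z' j) (z' i) * (if z = Function.update z' i (z' j) then 1 else 0)) *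
                  VV J K s z' y := by
                refine mul_le_mul (mul_le_mul_of_nonneg_left hr' hv1) hw hw0 ?_
                exact mul_nonneg hv1 (hr0.trans hr')
            _ = _ := by
                rw [Finset.mul_sum, Finset.sum_mul]
                refine Finset.sum_congr rfl fun i _ => ?_
                rw [Finset.mul_sum, Finset.sum_mul]
                refine Finset.sum_congr rfl fun j _ => ?_
                split_ifs <;> ring
        · have h3 : E (MW J K c) s z' y = 0 := E_support hM0 s hz' hy
          rw [h3, mul_zero, mul_zero]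
          refine Finset.sum_nonneg fun i _ => Finset.sum_nonneg fun j _ => ?_
          have hv1 := VV_nonneg hJ K (t := t - s) (by linarith) (pre v y) z
          have hv2 := VV_nonneg hJ K hs0 z' y
          split_ifs
          · exact le_rfl
          · rw [mul_one]; exact mul_nonneg (mul_nonneg hv1 (hJ _ _)) hv2
          · rw [mul_zero, mul_zero, zero_mul]
      refine (Finset.sum_le_sum fun z _ => Finset.sum_le_sum fun z' _ => h2 z z').trans
        (le_of_eq ?_)
      have h4 : ∀ i j : Fin K, ∑ z, ∑ z', (if i = j then 0 else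
            VV J K (t - s) (pre v y) z *
            (J (z' j) (z' i) * (if z = Function.update z' i (z' j) then 1 else 0)) *
            VV J K s z' y) = (if i = j then 0 else
          ∑ z : Fin K → V, VV J K (t - s) (pre v y) (Function.update z i (z j)) *
            J (z j) (z i) * VV J K s z y) := by
        intro i j
        by_cases hij : i = j
        · simp [hij]
        · simp only [if_neg hij]
          rw [Finset.sum_comm]
          refine Finset.sum_congr rfl fun z' _ => ?_
          rw [Finset.sum_eq_single (Function.update z' i (z' j))]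
          · rw [if_pos rfl]; ring
          · intro z _ hz; rw [if_neg hz]; ring
          · intro h; exact absurd (Finset.mem_univ _) h
      simp only [← h4]
      rw [Finset.sum_congr rfl fun z _ => Finset.sum_comm, Finset.sum_comm]
      refine Finset.sum_congr rfl fun i _ => ?_
      rw [Finset.sum_congr rfl fun z _ => Finset.sum_comm, Finset.sum_comm]
    refine (Finset.sum_le_sum fun y hy => h1 y (Finset.mem_filter.1 hy).2).trans ?_
    have h5 : ∀ y : Fin K → V, 0 ≤ ∑ i : Fin K, ∑ j : Fin K, (if i = j then 0 else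
          ∑ z : Fin K → V, VV J K (t - s) (pre v y) (Function.update z i (z j)) *
            J (z j) (z i) * VV J K s z y) := by
      intro y
      refine Finset.sum_nonneg fun i _ => Finset.sum_nonneg fun j _ => ?_
      split_ifs
      · exact le_rfl
      · exact Finset.sum_nonneg fun z _ => mul_nonneg (mul_nonneg
          (VV_nonneg hJ K (by linarith) _ _) (hJ _ _)) (VV_nonneg hJ K hs0 _ _)
    refine (Finset.sum_le_sum_of_subset_of_nonneg (Finset.filter_subset _ _)
      fun y _ _ => h5 y).trans (le_of_eq ?_)
    rw [Finset.sum_comm]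
    refine Finset.sum_congr rfl fun i _ => ?_
    rw [Finset.sum_comm]
    refine Finset.sum_congr rfl fun j _ => ?_
    split_ifs
    · exact Finset.sum_const_zero
    · rfl

end kill

end Pool.Agent.Y998.ST
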